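import Mathlib

/-!
Zeros of the closed form of the chromatic polynomial of the family A (task Z).

`hurwitz` is a Hurwitz type lemma: if holomorphic functions `f n` converge uniformly on a closed disc to a
function that is zero at the centre and has no zero on the circle, then `f n` has a zero in the disc for all
large `n`. `exists_zero_H` finds zeros of the closed form near a point `z0` with `|z0-3| < |z0^2-3z0+3|`.
-/

set_option autoImplicit false
open Filter Topology Metric Set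

namespace Pool.Agent.LibChromRoots

/-- Hurwitz type lemma -/
theorem hurwitz (f : ℕ → ℂ → ℂ) (g : ℂ → ℂ) (c : ℂ) (r : ℝ) (hr : 0 < r)
    (hf : ∀ᶠ n in atTop, DiffContOnCl ℂ (f n) (ball c r)) (hgc : g c = 0)
    (hg : ContinuousOn g (sphere c r))
    (hgs : ∀ z ∈ sphere c r, g z ≠ 0) (hu : TendstoUniformlyOn f g atTop (closedBall c r)) :
    ∀ᶠ n in atTop, ∃ z ∈ closedBall c r, f n z = 0 := by
  have hcomp : IsCompact (sphere c r) := isCompact_sphere c r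
  have hne : (sphere c r).Nonempty := (NormedSpace.sphere_nonempty).2 hr.le
  obtain ⟨z1, hz1, hmin⟩ := hcomp.exists_isMinOn hne hg.norm
  have hm : 0 < ‖g z1‖ := norm_pos_iff.2 (hgs z1 hz1)
  set m : ℝ := ‖g z1‖ with hmdef
  have hu8 := Metric.tendstoUniformlyOn_iff.1 hu (m / 8) (by linarith)
  filter_upwards [hf, hu8] with n hfn hun
  have hcmem : c ∈ closedBall c r := mem_closedBall_self hr.le
  have hc8 : ‖f n c‖ < m / 8 := by
    have := hun c hcmem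
    rw [hgc, dist_zero_left] at this
    exact this
  have hs : ∀ z ∈ sphere c r, 3 * m / 4 ≤ ‖f n z - f n c‖ := by
    intro z hz
    have h1 : m ≤ ‖g z‖ := hmin hz
    have h2 := hun z (sphere_subset_closedBall hz)
    rw [dist_eq_norm] at h2
    have h3 : ‖g z‖ ≤ ‖g z - f n z‖ + ‖f n z - f n c‖ + ‖f n c‖ := by
      have : g z = (g z - f n z) + (f n z - f n c) + f n c := by ring
      calc ‖g z‖ = ‖(g z - f n z) + (f n z - f n c) + f n c‖ := by rw [← this]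
        _ ≤ _ := norm_add₃_le
    linarith
  have hfr : ∃ᶠ z in 𝓝 c, f n z ≠ f n c := by
    intro hcon
    have hcon' : ∀ᶠ z in 𝓝 c, f n z = (fun _ => f n c) z := by
      filter_upwards [hcon] with z hz
      simpa using hz
    have han : AnalyticOnNhd ℂ (f n) (ball c r) :=
      hfn.differentiableOn.analyticOnNhd isOpen_ball
    have heq : EqOn (f n) (fun _ => f n c) (ball c r) :=
      han.eqOn_of_preconnected_of_eventuallyEq analyticOnNhd_const
        (convex_ball c r).isPreconnected (mem_ball_self hr) hcon'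
    have hcl : EqOn (f n) (fun _ => f n c) (closure (ball c r)) := by
      intro z hz
      have hcc : IsClosed (closure (ball c r) ∩ f n ⁻¹' {f n c}) :=
        hfn.continuousOn.preimage_isClosed_of_isClosed isClosed_closure
          (isClosed_singleton (x := f n c))
      have hsub : closure (ball c r) ⊆ closure (ball c r) ∩ f n ⁻¹' {f n c} :=
        closure_minimal (fun w hw => ⟨subset_closure hw, heq hw⟩) hcc
      exact (hsub hz).2
    have h5 := hs z1 hz1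
    have h6 : f n z1 = f n c := by
      apply hcl
      rw [closure_ball c hr.ne']
      exact sphere_subset_closedBall hz1
    rw [h6, sub_self, norm_zero] at h5
    linarith
  have hsub := hfn.ball_subset_image_closedBall hr hs hfr
  have h0 : (0 : ℂ) ∈ ball (f n c) (3 * m / 4 / 2) := by
    rw [mem_ball, dist_zero_left]
    linarith
  obtain ⟨z, hz, hz0⟩ := hsub h0
  exact ⟨z, hz, hz0⟩


/-- the sequence with `z * aSeq z k = (z-2)*(z^2-3*z+3)^k + 2*(3-z)^k` -/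
noncomputable def aSeq (z : ℂ) : ℕ → ℂ
  | 0 => 1
  | (k + 1) => (z ^ 2 - 3 * z + 3) * aSeq z k - 2 * (z - 2) * (3 - z) ^ k

theorem mul_aSeq (z : ℂ) (k : ℕ) :
    z * aSeq z k = (z - 2) * (z ^ 2 - 3 * z + 3) ^ k + 2 * (3 - z) ^ k := by
  induction k with
  | zero => simp [aSeq]
  | succ k ih =>
    have : z * aSeq z (k + 1)
        = (z ^ 2 - 3 * z + 3) * (z * aSeq z k) - 2 * z * (z - 2) * (3 - z) ^ k := by
      simp only [aSeq]; ring
    rw [this, ih]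
    ring

/-- the ratio `(3-z)/(z^2-3z+3)` -/
noncomputable def zt (z : ℂ) : ℂ := (3 - z) / (z ^ 2 - 3 * z + 3)

/-- the factor `2z/((z-1)(z-2+2 zt^n))` -/
noncomputable def dn (n : ℕ) (z : ℂ) : ℂ := 2 * z / ((z - 1) * (z - 2 + 2 * zt z ^ n))

/-- the small quantity -/
noncomputable def xn (n : ℕ) (z : ℂ) : ℂ := zt z ^ n * dn n z

/-- the algebraic reduction -/
theorem eq_of_pow (z : ℂ) (n P : ℕ) (h0 : z ≠ 0) (h1 : z ≠ 1) (h2 : z ≠ 2)
    (ht : z ^ 2 - 3 * z + 3 ≠ 0) (hd : z - 2 + 2 * zt z ^ n ≠ 0)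
    (h : (z - 1) * (1 - xn n z) ^ P = -1) :
    ((z - 1) * (z - 2) * aSeq z n) ^ P
      + (z - 1) * ((z - 1) * (z - 2) * aSeq z n - 2 * (z - 2) * (3 - z) ^ n) ^ P = 0 := by
  have h1' : z - 1 ≠ 0 := sub_ne_zero.2 h1
  have h2' : z - 2 ≠ 0 := sub_ne_zero.2 h2
  have htn : (z ^ 2 - 3 * z + 3) ^ n ≠ 0 := pow_ne_zero _ ht
  have hpow : (3 - z) ^ n = zt z ^ n * (z ^ 2 - 3 * z + 3) ^ n := by
    rw [← mul_pow, zt, div_mul_cancel₀ _ ht]
  have ha : z * aSeq z n = (z ^ 2 - 3 * z + 3) ^ n * (z - 2 + 2 * zt z ^ n) := by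
    rw [mul_aSeq, hpow]; ring
  have hkey : (z - 1) * (z - 2) * aSeq z n - 2 * (z - 2) * (3 - z) ^ n
      = ((z - 1) * (z - 2) * aSeq z n) * (1 - xn n z) := by
    have hx : (z - 1) * (z * aSeq z n) * xn n z = 2 * z * (3 - z) ^ n := by
      rw [ha, hpow, xn, dn]
      field_simp
    have hx' : (z - 1) * aSeq z n * xn n z = 2 * (3 - z) ^ n := by
      apply mul_left_cancel₀ h0
      linear_combination hx
    linear_combination (z - 2) * hx'
  rw [hkey, mul_pow (_ * aSeq z n)]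
  linear_combination ((z - 1) * (z - 2) * aSeq z n) ^ P * h

/-- the ratio `-log(1-xn)/zt^n` -/
noncomputable def rn (n : ℕ) (z : ℂ) : ℂ := -Complex.log (1 - xn n z) / zt z ^ n

theorem tendsto_ztpow (z0 : ℂ) (h0 : ‖zt z0‖ < 1) (hc : ContinuousAt zt z0) :
    Tendsto (fun q : ℕ × ℂ => zt q.2 ^ q.1) (atTop ×ˢ 𝓝 z0) (𝓝 0) := by
  obtain ⟨ρ, hρ1, hρ2⟩ := exists_between h0
  have hρ0 : 0 ≤ ρ := (norm_nonneg _).trans hρ1.le
  have h1 : ∀ᶠ z in 𝓝 z0, ‖zt z‖ < ρ := hc.norm.eventually_lt continuousAt_const hρ1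
  have h2 : ∀ᶠ q in (atTop ×ˢ 𝓝 z0 : Filter (ℕ × ℂ)), ‖zt q.2 ^ q.1‖ ≤ ρ ^ q.1 := by
    filter_upwards [tendsto_snd.eventually h1] with q hq
    rw [norm_pow]
    exact pow_le_pow_left₀ (norm_nonneg _) hq.le _
  exact squeeze_zero_norm' h2 ((tendsto_pow_atTop_nhds_zero_of_lt_one hρ0 hρ2).comp tendsto_fst)

theorem tendsto_dn (z0 : ℂ) (h0 : ‖zt z0‖ < 1) (hc : ContinuousAt zt z0) (h1 : z0 ≠ 1)
    (h2 : z0 ≠ 2) :
    Tendsto (fun q : ℕ × ℂ => dn q.1 q.2) (atTop ×ˢ 𝓝 z0)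
      (𝓝 (2 * z0 / ((z0 - 1) * (z0 - 2)))) := by
  have hz : Tendsto (fun q : ℕ × ℂ => q.2) (atTop ×ˢ 𝓝 z0) (𝓝 z0) := tendsto_snd
  have hp := tendsto_ztpow z0 h0 hc
  have h3 : Tendsto (fun q : ℕ × ℂ => (q.2 - 1) * (q.2 - 2 + 2 * zt q.2 ^ q.1)) (atTop ×ˢ 𝓝 z0)
      (𝓝 ((z0 - 1) * (z0 - 2 + 2 * 0))) :=
    (hz.sub_const 1).mul ((hz.sub_const 2).add (hp.const_mul 2))
  rw [mul_zero, add_zero] at h3
  exact (hz.const_mul 2).div h3 (mul_ne_zero (sub_ne_zero.2 h1) (sub_ne_zero.2 h2))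

theorem tendsto_xn (z0 : ℂ) (h0 : ‖zt z0‖ < 1) (hc : ContinuousAt zt z0) (h1 : z0 ≠ 1)
    (h2 : z0 ≠ 2) :
    Tendsto (fun q : ℕ × ℂ => xn q.1 q.2) (atTop ×ˢ 𝓝 z0) (𝓝 0) := by
  have := (tendsto_ztpow z0 h0 hc).mul (tendsto_dn z0 h0 hc h1 h2)
  rwa [zero_mul] at this

theorem tendsto_rn (z0 : ℂ) (h0 : ‖zt z0‖ < 1) (hne : zt z0 ≠ 0) (hc : ContinuousAt zt z0)
    (h1 : z0 ≠ 1) (h2 : z0 ≠ 2) :
    Tendsto (fun q : ℕ × ℂ => rn q.1 q.2) (atTop ×ˢ 𝓝 z0)
      (𝓝 (2 * z0 / ((z0 - 1) * (z0 - 2)))) := by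
  have hd := tendsto_dn z0 h0 hc h1 h2
  have hx := tendsto_xn z0 h0 hc h1 h2
  have hp := tendsto_ztpow z0 h0 hc
  have hz1 : ∀ᶠ q in (atTop ×ˢ 𝓝 z0 : Filter (ℕ × ℂ)), zt q.2 ≠ 0 :=
    tendsto_snd.eventually (hc.eventually_ne hne)
  have hx1 : ∀ᶠ q in (atTop ×ˢ 𝓝 z0 : Filter (ℕ × ℂ)), ‖xn q.1 q.2‖ < 1 / 2 := by
    have := hx.norm.eventually_lt (tendsto_const_nhds (x := (1 / 2 : ℝ))) (by simp)
    exact this
  have hdiff : Tendsto (fun q : ℕ × ℂ => rn q.1 q.2 - dn q.1 q.2) (atTop ×ˢ 𝓝 z0) (𝓝 0) := by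
    have hb : ∀ᶠ q in (atTop ×ˢ 𝓝 z0 : Filter (ℕ × ℂ)),
        ‖rn q.1 q.2 - dn q.1 q.2‖ ≤ ‖zt q.2 ^ q.1‖ * ‖dn q.1 q.2‖ ^ 2 := by
      filter_upwards [hz1, hx1] with q hq hq2
      have hpne : zt q.2 ^ q.1 ≠ 0 := pow_ne_zero _ hq
      have hpos : 0 < ‖zt q.2 ^ q.1‖ := norm_pos_iff.2 hpne
      have hlog := Complex.norm_log_one_add_sub_self_le (z := -xn q.1 q.2)
        (by rw [norm_neg]; linarith)
      rw [norm_neg] at hlog
      have hinv : (1 - ‖xn q.1 q.2‖)⁻¹ ≤ 2 := by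
        rw [inv_le_comm₀ (by linarith) (by norm_num)]
        linarith
      have e1 : rn q.1 q.2 - dn q.1 q.2
          = -(Complex.log (1 + -xn q.1 q.2) - -xn q.1 q.2) / zt q.2 ^ q.1 := by
        rw [rn, ← sub_eq_add_neg]
        nth_rewrite 3 [xn]
        field_simp
        ring
      rw [e1, norm_div, norm_neg, div_le_iff₀ hpos]
      calc _ ≤ ‖xn q.1 q.2‖ ^ 2 * (1 - ‖xn q.1 q.2‖)⁻¹ / 2 := hlog
        _ ≤ ‖xn q.1 q.2‖ ^ 2 * 2 / 2 := by gcongr
        _ = _ := by rw [xn, norm_mul]; ring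
    refine squeeze_zero_norm' hb ?_
    have := hp.norm.mul (hd.norm.pow 2)
    rwa [norm_zero, zero_mul] at this
  have := hdiff.add hd
  rw [zero_add] at this
  refine this.congr (fun q => ?_)
  ring

theorem mem_slit {w : ℂ} (h : ‖w - 1‖ < 1 / 2) : w ∈ Complex.slitPlane := by
  have h2 : |(w - 1).re| ≤ ‖w - 1‖ := Complex.abs_re_le_norm _
  rw [Complex.sub_re, Complex.one_re] at h2
  have := (abs_le.1 h2).1
  left
  linarith

theorem norm_log_near {w : ℂ} (h : ‖w - 1‖ < 1 / 2) : ‖Complex.log w‖ ≤ 1 := by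
  have := Complex.norm_log_one_add_half_le_self (z := w - 1) h.le
  rw [show 1 + (w - 1) = w by ring] at this
  linarith

theorem ne_of_im {z w : ℂ} (h : z.im ≠ 0) (hw : w.im = 0) : z ≠ w := by
  rintro rfl
  exact h hw

/-- only two points have the same value of `zt` -/
theorem zt_ne (z0 z : ℂ) (h0 : z0 ^ 2 - 3 * z0 + 3 ≠ 0) (hz : z ^ 2 - 3 * z + 3 ≠ 0)
    (hne : z ≠ z0) (h1 : zt z0 * (z + z0) ≠ 3 * zt z0 - 1) : zt z ≠ zt z0 := by
  intro h
  have e1 : zt z0 * (z ^ 2 - 3 * z + 3) = 3 - z := by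
    rw [← h, zt, div_mul_cancel₀ _ hz]
  have e2 : zt z0 * (z0 ^ 2 - 3 * z0 + 3) = 3 - z0 := by
    rw [zt, div_mul_cancel₀ _ h0]
  have e3 : (z - z0) * (zt z0 * (z + z0) - (3 * zt z0 - 1)) = 0 := by
    linear_combination e1 - e2
  rcases mul_eq_zero.1 e3 with h | h
  · exact hne (sub_eq_zero.1 h)
  · exact h1 (sub_eq_zero.1 h)

theorem eventually_zt_ne (z0 : ℂ) (h0 : z0 ^ 2 - 3 * z0 + 3 ≠ 0) (hz0 : zt z0 ≠ 0) :
    ∀ᶠ z in 𝓝 z0, z ≠ z0 → zt z ≠ zt z0 := by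
  have ht : ∀ᶠ z : ℂ in 𝓝 z0, z ^ 2 - 3 * z + 3 ≠ 0 :=
    ContinuousAt.eventually_ne (by fun_prop) h0
  by_cases h1 : zt z0 * (z0 + z0) = 3 * zt z0 - 1
  · filter_upwards [ht] with z hz hne
    apply zt_ne z0 z h0 hz hne
    intro h2
    apply hne
    rw [← h1] at h2
    exact add_right_cancel (mul_left_cancel₀ hz0 h2)
  · have h2 : ∀ᶠ z : ℂ in 𝓝 z0, zt z0 * (z + z0) ≠ 3 * zt z0 - 1 :=
      ContinuousAt.eventually_ne (g := fun z => zt z0 * (z + z0)) (by fun_prop) h1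
    filter_upwards [ht, h2] with z hz h2 hne
    exact zt_ne z0 z h0 hz hne h2

theorem exists_zero_aux (z0 : ℂ) (him : z0.im ≠ 0) (h0 : ‖z0 - 3‖ < ‖z0 ^ 2 - 3 * z0 + 3‖)
    (d : ℝ) (hd : 0 < d) :
    ∃ (n p : ℕ) (z : ℂ), 1 ≤ n ∧ 1 ≤ p ∧ ‖z - z0‖ < d ∧ ‖z - 3‖ < ‖z ^ 2 - 3 * z + 3‖ ∧
      z ≠ 0 ∧ z ≠ 2 ∧
      ((z - 1) * (z - 2) * aSeq z n) ^ (p + 1)
      + (z - 1) * ((z - 1) * (z - 2) * aSeq z n - 2 * (z - 2) * (3 - z) ^ n) ^ (p + 1) = 0 := by
  have ht0 : z0 ^ 2 - 3 * z0 + 3 ≠ 0 := norm_pos_iff.1 ((norm_nonneg _).trans_lt h0)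
  have z00 : z0 ≠ 0 := ne_of_im him (by simp)
  have z01 : z0 ≠ 1 := ne_of_im him (by simp)
  have z02 : z0 ≠ 2 := ne_of_im him (by simp)
  have z03 : (3 : ℂ) - z0 ≠ 0 := sub_ne_zero.2 (ne_of_im him (by simp)).symm
  have hztc : ∀ z : ℂ, z ^ 2 - 3 * z + 3 ≠ 0 → DifferentiableAt ℂ zt z := by
    intro z hz
    unfold zt
    fun_prop (disch := exact hz)
  have hc : ContinuousAt zt z0 := (hztc z0 ht0).continuousAt
  have hζ0 : zt z0 ≠ 0 := div_ne_zero z03 ht0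
  have hζ1 : ‖zt z0‖ < 1 := by
    rw [zt, norm_div, div_lt_one (norm_pos_iff.2 ht0), ← norm_neg, neg_sub]
    exact h0
  set C0 : ℂ := 2 * z0 / ((z0 - 1) * (z0 - 2)) with hC0
  have hC0ne : C0 ≠ 0 := div_ne_zero (mul_ne_zero two_ne_zero z00)
    (mul_ne_zero (sub_ne_zero.2 z01) (sub_ne_zero.2 z02))
  set l0 : ℂ := Complex.log (1 - z0) with hl0
  have hslit : ∀ z : ℂ, z.im ≠ 0 → 1 - z ∈ Complex.slitPlane := by
    intro z hz
    right
    simpa using hz
  have hl0ne : l0 ≠ 0 := by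
    intro h
    have h2 : Complex.exp l0 = 1 - z0 :=
      Complex.exp_log (Complex.slitPlane_ne_zero (hslit z0 him))
    rw [h, Complex.exp_zero] at h2
    apply z00
    linear_combination h2
  -- eventual facts along the product filter
  have hz2 : Tendsto (fun q : ℕ × ℂ => q.2) (atTop ×ˢ 𝓝 z0) (𝓝 z0) := tendsto_snd
  have E1 : ∀ᶠ z : ℂ in 𝓝 z0, z.im ≠ 0 := Complex.continuous_im.continuousAt.eventually_ne him
  have E2 : ∀ᶠ z : ℂ in 𝓝 z0, ‖z - 3‖ < ‖z ^ 2 - 3 * z + 3‖ :=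
    ContinuousAt.eventually_lt (f := fun z : ℂ => ‖z - 3‖)
      (g := fun z : ℂ => ‖z ^ 2 - 3 * z + 3‖) (by fun_prop) (by fun_prop) h0
  have E3 : ∀ᶠ z : ℂ in 𝓝 z0, ‖zt z / zt z0 - 1‖ < 1 / 2 := by
    have : ContinuousAt (fun z => ‖zt z / zt z0 - 1‖) z0 := by
      exact ((hc.div_const _).sub_const _).norm
    refine this.eventually_lt continuousAt_const ?_
    rw [div_self hζ0]
    norm_num
  have E4 : ∀ᶠ z : ℂ in 𝓝 z0, ‖Complex.log (1 - z) / l0 - 1‖ < 1 / 2 := by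
    have h1 : ContinuousAt (fun z : ℂ => Complex.log (1 - z)) z0 :=
      (continuousAt_const.sub continuousAt_id).clog (hslit z0 him)
    have : ContinuousAt (fun z => ‖Complex.log (1 - z) / l0 - 1‖) z0 :=
      ((h1.div_const _).sub_const _).norm
    refine this.eventually_lt continuousAt_const ?_
    rw [← hl0, div_self hl0ne]
    norm_num
  have E5 : ∀ᶠ z : ℂ in 𝓝 z0, z ≠ z0 → zt z ≠ zt z0 := eventually_zt_ne z0 ht0 hζ0
  have E6 : ∀ᶠ z : ℂ in 𝓝 z0, ‖z - z0‖ < d := by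
    have : ContinuousAt (fun z : ℂ => ‖z - z0‖) z0 := by fun_prop
    refine this.eventually_lt continuousAt_const ?_
    simpa using hd
  have E7 : ∀ᶠ q in (atTop ×ˢ 𝓝 z0 : Filter (ℕ × ℂ)), q.2 - 2 + 2 * zt q.2 ^ q.1 ≠ 0 := by
    have h1 := (hz2.sub_const 2).add ((tendsto_ztpow z0 hζ1 hc).const_mul 2)
    rw [mul_zero, add_zero] at h1
    exact h1.eventually_ne (sub_ne_zero.2 z02)
  have E8 : ∀ᶠ q in (atTop ×ˢ 𝓝 z0 : Filter (ℕ × ℂ)), ‖xn q.1 q.2‖ < 1 / 2 := by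
    have := (tendsto_xn z0 hζ1 hc z01 z02).norm.eventually_lt
      (tendsto_const_nhds (x := (1 / 2 : ℝ))) (by simp)
    exact this
  have E9 : ∀ᶠ q in (atTop ×ˢ 𝓝 z0 : Filter (ℕ × ℂ)), ‖rn q.1 q.2 / C0 - 1‖ < 1 / 2 := by
    have h1 := (((tendsto_rn z0 hζ1 hζ0 hc z01 z02).div_const C0).sub_const 1).norm
    have := h1.eventually_lt (tendsto_const_nhds (x := (1 / 2 : ℝ)))
      (by rw [← hC0, div_self hC0ne]; norm_num)
    exact this
  have EN := E7.and (E8.and E9)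
  obtain ⟨pa, hpa, pb, hpb, hpab⟩ := eventually_prod_iff.1 EN
  obtain ⟨r, hr, hball⟩ := (nhds_basis_closedBall.eventually_iff).1
    (hpb.and (E1.and (E2.and (E3.and (E4.and (E5.and E6))))))
  -- the sequences
  set Pn : ℕ → ℕ := fun n => ⌈(‖zt z0‖ ^ n)⁻¹⌉₊ + 1 with hPn
  set qn : ℕ → ℂ := fun n => l0 / (Pn n * C0 * zt z0 ^ n) with hqn
  have hζpos : 0 < ‖zt z0‖ := norm_pos_iff.2 hζ0
  have hP1 : ∀ n, 1 ≤ (Pn n : ℝ) * ‖zt z0‖ ^ n := by
    intro n
    have hpos : 0 < ‖zt z0‖ ^ n := pow_pos hζpos n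
    have h1 : (‖zt z0‖ ^ n)⁻¹ ≤ (Pn n : ℝ) := by
      rw [hPn]
      push_cast
      have := Nat.le_ceil ((‖zt z0‖ ^ n)⁻¹)
      linarith
    calc 1 = (‖zt z0‖ ^ n)⁻¹ * ‖zt z0‖ ^ n := (inv_mul_cancel₀ hpos.ne').symm
      _ ≤ _ := by gcongr
  have hP2 : ∀ n, (Pn n : ℝ) * ‖zt z0‖ ^ n ≤ 3 := by
    intro n
    have hpos : 0 < ‖zt z0‖ ^ n := pow_pos hζpos n
    have hle1 : ‖zt z0‖ ^ n ≤ 1 := pow_le_one₀ hζpos.le hζ1.le
    have h1 : (Pn n : ℝ) ≤ (‖zt z0‖ ^ n)⁻¹ + 2 := by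
      rw [hPn]
      push_cast
      have := (Nat.ceil_lt_add_one (inv_nonneg.2 hpos.le)).le
      linarith
    calc (Pn n : ℝ) * ‖zt z0‖ ^ n ≤ ((‖zt z0‖ ^ n)⁻¹ + 2) * ‖zt z0‖ ^ n := by gcongr
      _ = 1 + 2 * ‖zt z0‖ ^ n := by
        rw [add_mul, inv_mul_cancel₀ hpos.ne']
      _ ≤ 3 := by linarith
  set A : ℝ := ‖l0‖ / ‖C0‖ with hA
  have hApos : 0 < A := div_pos (norm_pos_iff.2 hl0ne) (norm_pos_iff.2 hC0ne)
  have hqnorm : ∀ n, ‖qn n‖ = A / ((Pn n : ℝ) * ‖zt z0‖ ^ n) := by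
    intro n
    rw [hqn, hA]
    simp only [norm_div, norm_mul, norm_pow, Complex.norm_natCast]
    rw [div_div]
    congr 1
    ring
  have hq1 : ∀ n, ‖qn n‖ ≤ A := by
    intro n
    rw [hqnorm]
    exact div_le_self hApos.le (hP1 n)
  have hq2 : ∀ n, A / 3 ≤ ‖qn n‖ := by
    intro n
    rw [hqnorm]
    have : 0 < (Pn n : ℝ) * ‖zt z0‖ ^ n := lt_of_lt_of_le one_pos (hP1 n)
    exact div_le_div_of_nonneg_left hApos.le this (hP2 n)
  have hqne : ∀ n, qn n ≠ 0 := by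
    intro n
    have := hq2 n
    have h3 : 0 < A / 3 := by positivity
    exact norm_pos_iff.1 (h3.trans_le this)
  obtain ⟨M, hM⟩ : ∃ M : ℝ, ∀ n, ‖Complex.log (qn n)‖ ≤ M := by
    refine ⟨|Real.log A| + |Real.log (A / 3)| + Real.pi, fun n => ?_⟩
    refine (Complex.norm_le_abs_re_add_abs_im _).trans ?_
    rw [Complex.log_re, Complex.log_im]
    have hpos : 0 < ‖qn n‖ := norm_pos_iff.2 (hqne n)
    have h1 : Real.log ‖qn n‖ ≤ Real.log A := Real.log_le_log hpos (hq1 n)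
    have h2 : Real.log (A / 3) ≤ Real.log ‖qn n‖ := Real.log_le_log (by positivity) (hq2 n)
    have h3 : |Real.log ‖qn n‖| ≤ |Real.log A| + |Real.log (A / 3)| := by
      rw [abs_le]
      constructor
      · have := neg_abs_le (Real.log (A / 3))
        have := abs_nonneg (Real.log A)
        linarith
      · have := le_abs_self (Real.log A)
        have := abs_nonneg (Real.log (A / 3))
        linarith
    have h4 := Complex.abs_arg_le_pi (qn n)
    linarith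
  -- the functions
  set g : ℂ → ℂ := fun z => Complex.log (zt z / zt z0) with hg
  set f : ℕ → ℂ → ℂ := fun n z => g z + (Complex.log (rn n z / C0)
    - Complex.log (Complex.log (1 - z) / l0) - Complex.log (qn n)) / n with hf
  have hgc : g z0 = 0 := by
    rw [hg]
    simp only
    rw [div_self hζ0, Complex.log_one]
  have hdg : ∀ z ∈ closedBall z0 r, DifferentiableAt ℂ g z := by
    intro z hz
    obtain ⟨-, h1, h2, h3, -⟩ := hball hz
    have ht : z ^ 2 - 3 * z + 3 ≠ 0 := norm_pos_iff.1 ((norm_nonneg _).trans_lt h2)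
    exact ((hztc z ht).div_const _).clog (mem_slit h3)
  have hgs : ∀ z ∈ sphere z0 r, g z ≠ 0 := by
    intro z hz h
    obtain ⟨-, h1, h2, h3, -, h5, -⟩ := hball (sphere_subset_closedBall hz)
    have hne : z ≠ z0 := ne_of_mem_sphere hz hr.ne'
    apply h5 hne
    have h6 : Complex.exp (g z) = zt z / zt z0 :=
      Complex.exp_log (Complex.slitPlane_ne_zero (mem_slit h3))
    rw [h, Complex.exp_zero] at h6
    rw [eq_div_iff hζ0, one_mul] at h6
    exact h6.symm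
  have hcl : closure (ball z0 r) = closedBall z0 r := closure_ball z0 hr.ne'
  have hdf : ∀ᶠ n in atTop, DiffContOnCl ℂ (f n) (ball z0 r) := by
    filter_upwards [hpa] with n hn
    apply DifferentiableOn.diffContOnCl
    rw [hcl]
    intro z hz
    apply DifferentiableAt.differentiableWithinAt
    obtain ⟨hpbz, h1, h2, h3, h4, -⟩ := hball hz
    obtain ⟨h7, h8, h9⟩ := hpab hn hpbz
    simp only at h7 h8 h9
    have ht : z ^ 2 - 3 * z + 3 ≠ 0 := norm_pos_iff.1 ((norm_nonneg _).trans_lt h2)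
    have hz1 : z - 1 ≠ 0 := sub_ne_zero.2 (ne_of_im h1 (by simp))
    have hζz : zt z ≠ 0 := div_ne_zero (sub_ne_zero.2 (ne_of_im h1 (by simp)).symm) ht
    have dζ := hztc z ht
    have dpow : DifferentiableAt ℂ (fun z => zt z ^ n) z := dζ.pow n
    have ddn : DifferentiableAt ℂ (dn n) z := by
      unfold dn
      refine DifferentiableAt.div (by fun_prop) ?_ (mul_ne_zero hz1 h7)
      exact (differentiableAt_id.sub_const 1).mul
        ((differentiableAt_id.sub_const 2).add (dpow.const_mul 2))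
    have dxn : DifferentiableAt ℂ (xn n) z := dpow.mul ddn
    have drn : DifferentiableAt ℂ (rn n) z := by
      unfold rn
      refine DifferentiableAt.div ?_ dpow (pow_ne_zero _ hζz)
      refine DifferentiableAt.neg ?_
      refine ((differentiableAt_const 1).sub dxn).clog ?_
      have h8' : ‖1 - xn n z - 1‖ < 1 / 2 := by
        rw [show 1 - xn n z - 1 = -xn n z by ring, norm_neg]
        exact h8
      exact mem_slit h8'
    have dl : DifferentiableAt ℂ (fun z : ℂ => Complex.log (Complex.log (1 - z) / l0)) z := by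
      refine DifferentiableAt.clog ?_ (mem_slit h4)
      refine DifferentiableAt.div_const ?_ _
      exact ((differentiableAt_const 1).sub differentiableAt_id).clog (hslit z h1)
    refine (hdg z hz).add ?_
    refine DifferentiableAt.div_const ?_ _
    refine DifferentiableAt.sub_const ?_ _
    refine DifferentiableAt.sub ?_ dl
    exact (drn.div_const _).clog (mem_slit h9)
  have hunif : TendstoUniformlyOn f g atTop (closedBall z0 r) := by
    rw [Metric.tendstoUniformlyOn_iff]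
    intro ε hε
    have hlim : Tendsto (fun n : ℕ => (2 + M) / (n : ℝ)) atTop (𝓝 0) :=
      tendsto_const_div_atTop_nhds_zero_nat _
    filter_upwards [hpa, hlim.eventually_lt_const hε] with n hn hn2 z hz
    obtain ⟨hpbz, h1, h2, h3, h4, -⟩ := hball hz
    obtain ⟨h7, h8, h9⟩ := hpab hn hpbz
    simp only at h7 h8 h9
    rw [dist_eq_norm]
    have e1 : g z - f n z = -((Complex.log (rn n z / C0)
      - Complex.log (Complex.log (1 - z) / l0) - Complex.log (qn n)) / n) := by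
      rw [hf]; ring
    rw [e1, norm_neg, norm_div, Complex.norm_natCast]
    refine lt_of_le_of_lt ?_ hn2
    apply div_le_div_of_nonneg_right _ (Nat.cast_nonneg n)
    have a1 := norm_log_near h9
    have a2 := norm_log_near h4
    have a3 := hM n
    have a4 := norm_sub_le (Complex.log (rn n z / C0)) (Complex.log (Complex.log (1 - z) / l0))
    have a5 := norm_sub_le (Complex.log (rn n z / C0) - Complex.log (Complex.log (1 - z) / l0))
      (Complex.log (qn n))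
    linarith
  have hgcont : ContinuousOn g (sphere z0 r) := fun z hz =>
    (hdg z (sphere_subset_closedBall hz)).continuousAt.continuousWithinAt
  have hfin := hurwitz f g z0 r hr hdf hgc hgcont hgs hunif
  obtain ⟨n, ⟨hn1, hn2⟩, hn3⟩ := ((hpa.and hfin).and (eventually_ge_atTop 1)).exists
  obtain ⟨z, hz, hz0⟩ := hn2
  obtain ⟨hpbz, h1, h2, h3, h4, h5, h6⟩ := hball hz
  obtain ⟨h7, h8, h9⟩ := hpab hn1 hpbz
  simp only at h7 h8 h9
  have ht : z ^ 2 - 3 * z + 3 ≠ 0 := norm_pos_iff.1 ((norm_nonneg _).trans_lt h2)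
  have hζz : zt z ≠ 0 := div_ne_zero (sub_ne_zero.2 (ne_of_im h1 (by simp)).symm) ht
  have hP0 : (Pn n : ℂ) ≠ 0 := by
    rw [hPn]; simp only [Nat.cast_ne_zero]; omega
  refine ⟨n, Pn n - 1, z, hn3, ?_, h6, h2, ne_of_im h1 (by simp), ne_of_im h1 (by simp), ?_⟩
  · rw [hPn]
    simp only [Nat.add_sub_cancel]
    have : 0 < (‖zt z0‖ ^ n)⁻¹ := by positivity
    exact Nat.ceil_pos.2 this
  have hPs : Pn n - 1 + 1 = Pn n := by
    rw [hPn]; simp
  rw [hPs]
  apply eq_of_pow z n (Pn n) (ne_of_im h1 (by simp)) (ne_of_im h1 (by simp))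
    (ne_of_im h1 (by simp)) ht h7
  -- the main identity
  have hn0 : (n : ℂ) ≠ 0 := by
    simp only [ne_eq, Nat.cast_eq_zero]; omega
  have k1 : n * g z + Complex.log (rn n z / C0)
      = Complex.log (Complex.log (1 - z) / l0) + Complex.log (qn n) := by
    have : (n : ℂ) * f n z = 0 := by rw [hz0, mul_zero]
    rw [hf] at this
    simp only at this
    rw [mul_add, mul_div_cancel₀ _ hn0] at this
    linear_combination this
  have k2 : (zt z / zt z0) ^ n * (rn n z / C0) = Complex.log (1 - z) / l0 * qn n := by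
    have e1 : Complex.exp (n * g z + Complex.log (rn n z / C0))
        = (zt z / zt z0) ^ n * (rn n z / C0) := by
      rw [Complex.exp_add, Complex.exp_nat_mul, hg,
        Complex.exp_log (Complex.slitPlane_ne_zero (mem_slit h3)),
        Complex.exp_log (Complex.slitPlane_ne_zero (mem_slit h9))]
    have e2 : Complex.exp (Complex.log (Complex.log (1 - z) / l0) + Complex.log (qn n))
        = Complex.log (1 - z) / l0 * qn n := by
      rw [Complex.exp_add, Complex.exp_log (Complex.slitPlane_ne_zero (mem_slit h4)),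
        Complex.exp_log (hqne n)]
    rw [← e1, ← e2, k1]
  have hζ0n : zt z0 ^ n ≠ 0 := pow_ne_zero _ hζ0
  have hζzn : zt z ^ n ≠ 0 := pow_ne_zero _ hζz
  have k3 : (Pn n : ℂ) * Complex.log (1 - xn n z) = -Complex.log (1 - z) := by
    rw [hqn, rn, div_pow] at k2
    simp only at k2
    field_simp at k2
    linear_combination -k2
  have k4 : (1 - xn n z) ^ Pn n = (1 - z)⁻¹ := by
    have hx : 1 - xn n z ≠ 0 := by
      apply Complex.slitPlane_ne_zero
      apply mem_slit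
      rw [show 1 - xn n z - 1 = -xn n z by ring, norm_neg]
      exact h8
    have e1 : Complex.exp ((Pn n : ℂ) * Complex.log (1 - xn n z)) = (1 - xn n z) ^ Pn n := by
      rw [Complex.exp_nat_mul, Complex.exp_log hx]
    rw [← e1, k3, Complex.exp_neg, Complex.exp_log (Complex.slitPlane_ne_zero (hslit z h1))]
  have hz1 : 1 - z ≠ 0 := Complex.slitPlane_ne_zero (hslit z h1)
  rw [k4]
  field_simp
  ring

theorem exists_zero_H (z0 : ℂ) (h0 : ‖z0 - 3‖ < ‖z0 ^ 2 - 3 * z0 + 3‖) (d : ℝ) (hd : 0 < d) :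
    ∃ (n p : ℕ) (z : ℂ), 1 ≤ n ∧ 1 ≤ p ∧ ‖z - z0‖ < d ∧ ‖z - 3‖ < ‖z ^ 2 - 3 * z + 3‖ ∧
      z ≠ 0 ∧ z ≠ 2 ∧
      ((z - 1) * (z - 2) * aSeq z n) ^ (p + 1)
      + (z - 1) * ((z - 1) * (z - 2) * aSeq z n - 2 * (z - 2) * (3 - z) ^ n) ^ (p + 1) = 0 := by
  have hdense : Dense (Complex.im ⁻¹' {0}ᶜ) := (dense_compl_singleton (0 : ℝ)).preimage
    Complex.isOpenMap_im
  have E2 : ∀ᶠ z : ℂ in 𝓝 z0, ‖z - 3‖ < ‖z ^ 2 - 3 * z + 3‖ :=
    ContinuousAt.eventually_lt (f := fun z : ℂ => ‖z - 3‖)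
      (g := fun z : ℂ => ‖z ^ 2 - 3 * z + 3‖) (by fun_prop) (by fun_prop) h0
  have E6 : ∀ᶠ z : ℂ in 𝓝 z0, ‖z - z0‖ < d / 2 := by
    have : ContinuousAt (fun z : ℂ => ‖z - z0‖) z0 := by fun_prop
    refine this.eventually_lt continuousAt_const ?_
    simpa using hd
  obtain ⟨z1, ⟨h1, h2⟩, h3⟩ := mem_closure_iff_nhds.1 (hdense z0) _ (E2.and E6)
  obtain ⟨n, p, z, hn, hp, hz, hrest⟩ := exists_zero_aux z1 (by simpa using h3) h1 (d / 2)
    (by linarith)
  refine ⟨n, p, z, hn, hp, ?_, hrest⟩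
  calc ‖z - z0‖ = ‖(z - z1) + (z1 - z0)‖ := by ring_nf
    _ ≤ ‖z - z1‖ + ‖z1 - z0‖ := norm_add_le _ _
    _ < d := by linarith

end Pool.Agent.LibChromRoots
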