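import Pool.Agent.LibChromRoots.Defs
import Mathlib

/-!
3-connectivity of the graphs of the family A.
-/

set_option autoImplicit false

namespace Pool.Agent.LibChromRoots

variable {p n m : ℕ}

/-- Reachability by walks avoiding a finite set. -/
def Rch (T : Finset (Vtx p n m)) (x y : Vtx p n m) : Prop :=
  Relation.ReflTransGen (fun a b => (ladGraph p n m).Adj a b ∧ a ∉ T ∧ b ∉ T) x y

theorem Rch.symm {T : Finset (Vtx p n m)} {x y : Vtx p n m} (h : Rch T x y) : Rch T y x := by
  induction h with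
  | refl => exact Relation.ReflTransGen.refl
  | tail _ h ih =>
    exact Relation.ReflTransGen.trans
      (Relation.ReflTransGen.single ⟨h.1.symm, h.2.2, h.2.1⟩) ih

theorem Rch.trans {T : Finset (Vtx p n m)} {x y z : Vtx p n m} (h : Rch T x y) (h' : Rch T y z) :
    Rch T x z := Relation.ReflTransGen.trans h h'

theorem Rch.refl (T : Finset (Vtx p n m)) (x : Vtx p n m) : Rch T x x := Relation.ReflTransGen.refl

theorem Rch.edge {T : Finset (Vtx p n m)} {x y : Vtx p n m} (h : Edge p n m x y) (hx : x ∉ T)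
    (hy : y ∉ T) : Rch T x y := Relation.ReflTransGen.single ⟨Or.inl h, hx, hy⟩

theorem Rch.edge' {T : Finset (Vtx p n m)} {x y : Vtx p n m} (h : Edge p n m x y) (hx : x ∉ T)
    (hy : y ∉ T) : Rch T y x := (Rch.edge h hx hy).symm

theorem three_false {T : Finset (Vtx p n m)} (hT : T.card ≤ 2) {a b c : Vtx p n m} (ha : a ∈ T)
    (hb : b ∈ T) (hc : c ∈ T) (hab : a ≠ b) (hac : a ≠ c) (hbc : b ≠ c) : False := by
  have := Finset.two_lt_card_iff.2 ⟨a, b, c, ha, hb, hc, hab, hac, hbc⟩
  omega

/-! ### Moves along rails -/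

theorem up_down {T : Finset (Vtx p n m)} (i : Fin (p + 1)) (s : Bool) (k : Fin (n + 1))
    (h : ∀ j ≤ k, Vtx.up i j s ∉ T) : Rch T (.up i k s) (.up i 0 s) := by
  induction k using Fin.induction with
  | zero => exact Rch.refl _ _
  | succ k ih =>
    refine (Rch.edge' (Edge.rail i k s) ?_ (h _ le_rfl)).trans (ih fun j hj => h j ?_)
    · exact h _ (Fin.castSucc_lt_succ).le
    · exact hj.trans (Fin.castSucc_lt_succ).le

theorem up_up {T : Finset (Vtx p n m)} (i : Fin (p + 1)) (s : Bool) (k : Fin (n + 1))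
    (h : ∀ j, k ≤ j → Vtx.up i j s ∉ T) : Rch T (.up i k s) (.up i (Fin.last n) s) := by
  induction k using Fin.reverseInduction with
  | last => exact Rch.refl _ _
  | cast k ih =>
    refine (Rch.edge (Edge.rail i k s) (h _ le_rfl) ?_).trans (ih fun j hj => h j ?_)
    · exact h _ (Fin.castSucc_lt_succ).le
    · exact (Fin.castSucc_lt_succ).le.trans hj

theorem lk_left {T : Finset (Vtx p n m)} (i : Fin p) (s : Bool) (k : Fin (m + 1))
    (h : ∀ j ≤ k, Vtx.lk i j s ∉ T) : Rch T (.lk i k s) (.lk i 0 s) := by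
  induction k using Fin.induction with
  | zero => exact Rch.refl _ _
  | succ k ih =>
    refine (Rch.edge' (Edge.lrail i k s) ?_ (h _ le_rfl)).trans (ih fun j hj => h j ?_)
    · exact h _ (Fin.castSucc_lt_succ).le
    · exact hj.trans (Fin.castSucc_lt_succ).le

theorem lk_right {T : Finset (Vtx p n m)} (i : Fin p) (s : Bool) (k : Fin (m + 1))
    (h : ∀ j, k ≤ j → Vtx.lk i j s ∉ T) : Rch T (.lk i k s) (.lk i (Fin.last m) s) := by
  induction k using Fin.reverseInduction with
  | last => exact Rch.refl _ _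
  | cast k ih =>
    refine (Rch.edge (Edge.lrail i k s) (h _ le_rfl) ?_).trans (ih fun j hj => h j ?_)
    · exact h _ (Fin.castSucc_lt_succ).le
    · exact (Fin.castSucc_lt_succ).le.trans hj

theorem up_south {T : Finset (Vtx p n m)} (hS : Vtx.pole false ∉ T) (i : Fin (p + 1)) (s : Bool)
    (k : Fin (n + 1)) (h : ∀ j ≤ k, Vtx.up i j s ∉ T) : Rch T (.up i k s) (.pole false) :=
  (up_down i s k h).trans (Rch.edge' (Edge.bot i s) hS (h 0 (Fin.zero_le _)))

theorem up_north {T : Finset (Vtx p n m)} (hN : Vtx.pole true ∉ T) (i : Fin (p + 1)) (s : Bool)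
    (k : Fin (n + 1)) (h : ∀ j, k ≤ j → Vtx.up i j s ∉ T) : Rch T (.up i k s) (.pole true) :=
  (up_up i s k h).trans (Rch.edge' (Edge.top i s) hN (h _ (Fin.le_last _)))

theorem up_cross {T : Finset (Vtx p n m)} (i : Fin (p + 1)) (s : Bool) (k : Fin (n + 1))
    (h : Vtx.up i k s ∉ T) (h' : Vtx.up i k (!s) ∉ T) : Rch T (.up i k s) (.up i k (!s)) := by
  cases s
  · exact Rch.edge (Edge.rung i k) h h'
  · exact Rch.edge' (Edge.rung i k) h' h

theorem lk_cross {T : Finset (Vtx p n m)} (i : Fin p) (s : Bool) (k : Fin (m + 1))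
    (h : Vtx.lk i k s ∉ T) (h' : Vtx.lk i k (!s) ∉ T) : Rch T (.lk i k s) (.lk i k (!s)) := by
  cases s
  · exact Rch.edge (Edge.lrung i k) h h'
  · exact Rch.edge' (Edge.lrung i k) h' h

/-- the left end of a link rail -/
theorem lk_south {T : Finset (Vtx p n m)} (hS : Vtx.pole false ∉ T) (i : Fin p) (s : Bool)
    (k : Fin (m + 1)) (h : ∀ j ≤ k, Vtx.lk i j s ∉ T)
    (h' : s = false → Vtx.up i.castSucc 0 true ∉ T) : Rch T (.lk i k s) (.pole false) := by
  refine (lk_left i s k h).trans ?_
  have h0 := h 0 (Fin.zero_le _)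
  cases s
  · exact (Rch.edge' (Edge.lstart i) (h' rfl) h0).trans
      (Rch.edge' (Edge.bot i.castSucc true) hS (h' rfl))
  · exact Rch.edge' (Edge.lpole i) hS h0

/-- the right end of a link rail -/
theorem lk_end {T : Finset (Vtx p n m)} (i : Fin p) (s : Bool)
    (k : Fin (m + 1)) (h : ∀ j, k ≤ j → Vtx.lk i j s ∉ T) (h' : Vtx.up i.succ 0 false ∉ T) :
    Rch T (.lk i k s) (.up i.succ 0 false) :=
  (lk_right i s k h).trans (Rch.edge (Edge.lend i s) (h _ (Fin.le_last _)) h')

/-! ### The four cases -/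

/-- both poles present: every vertex reaches a pole -/
theorem reach_pole {T : Finset (Vtx p n m)} (hT : T.card ≤ 2) (hS : Vtx.pole false ∉ T)
    (hN : Vtx.pole true ∉ T) (x : Vtx p n m) (hx : x ∉ T) :
    Rch T x (.pole false) ∨ Rch T x (.pole true) := by
  cases x with
  | pole b => cases b
              · exact Or.inl (Rch.refl _ _)
              · exact Or.inr (Rch.refl _ _)
  | up i k s =>
    by_cases hA : ∀ j < k, Vtx.up i j s ∉ T
    · left
      refine up_south hS i s k fun j hj => ?_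
      rcases hj.lt_or_eq with h | rfl
      · exact hA j h
      · exact hx
    by_cases hB : ∀ j, k < j → Vtx.up i j s ∉ T
    · right
      refine up_north hN i s k fun j hj => ?_
      rcases hj.lt_or_eq with h | rfl
      · exact hB j h
      · exact hx
    by_cases hC : ∀ j, k ≤ j → Vtx.up i j (!s) ∉ T
    · right
      exact (up_cross i s k hx (hC k le_rfl)).trans (up_north hN i (!s) k hC)
    exfalso
    push Not at hA hB hC
    obtain ⟨a, ha, ha'⟩ := hA
    obtain ⟨b, hb, hb'⟩ := hB
    obtain ⟨c, hc, hc'⟩ := hC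
    refine three_false hT ha' hb' hc' ?_ ?_ ?_
    · intro h; injection h with _ h _; omega
    · intro h; injection h with _ _ h; cases s <;> simp at h
    · intro h; injection h with _ _ h; cases s <;> simp at h
  | lk i k s =>
    left
    by_cases hA : (∀ j < k, Vtx.lk i j s ∉ T) ∧ (s = false → Vtx.up i.castSucc 0 true ∉ T)
    · refine lk_south hS i s k (fun j hj => ?_) hA.2
      rcases hj.lt_or_eq with h | rfl
      · exact hA.1 j h
      · exact hx
    by_cases hB : (∀ j ≤ k, Vtx.lk i j (!s) ∉ T) ∧ ((!s) = false → Vtx.up i.castSucc 0 true ∉ T)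
    · exact (lk_cross i s k hx (hB.1 k le_rfl)).trans (lk_south hS i (!s) k hB.1 hB.2)
    by_cases hC : (∀ j, k < j → Vtx.lk i j s ∉ T) ∧ Vtx.up i.succ 0 false ∉ T
    · refine (lk_end i s k (fun j hj => ?_) hC.2).trans (Rch.edge' (Edge.bot i.succ false) hS hC.2)
      rcases hj.lt_or_eq with h | rfl
      · exact hC.1 j h
      · exact hx
    exfalso
    have hii : i.castSucc ≠ i.succ := (Fin.castSucc_lt_succ).ne
    have hA' : ∃ a ∈ T, (∃ j < k, a = Vtx.lk i j s) ∨ (s = false ∧ a = Vtx.up i.castSucc 0 true) := by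
      by_contra hc
      push Not at hc
      exact hA ⟨fun j hj h => (hc _ h).1 j hj rfl, fun hs h => (hc _ h).2 hs rfl⟩
    have hB' : ∃ a ∈ T, (∃ j ≤ k, a = Vtx.lk i j (!s)) ∨
        ((!s) = false ∧ a = Vtx.up i.castSucc 0 true) := by
      by_contra hc
      push Not at hc
      exact hB ⟨fun j hj h => (hc _ h).1 j hj rfl, fun hs h => (hc _ h).2 hs rfl⟩
    have hC' : ∃ a ∈ T, (∃ j, k < j ∧ a = Vtx.lk i j s) ∨ a = Vtx.up i.succ 0 false := by
      by_contra hc
      push Not at hc
      exact hC ⟨fun j hj h => (hc _ h).1 j hj rfl, fun h => (hc _ h).2 rfl⟩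
    obtain ⟨a, ha, ha'⟩ := hA'
    obtain ⟨b, hb, hb'⟩ := hB'
    obtain ⟨c, hc, hc'⟩ := hC'
    refine three_false hT ha hb hc ?_ ?_ ?_
    · rintro rfl
      rcases ha' with ⟨j, hj, rfl⟩ | ⟨hs, rfl⟩
      · rcases hb' with ⟨j', hj', h⟩ | ⟨hs, h⟩
        · injection h with _ _ h; cases s <;> simp at h
        · cases h
      · rcases hb' with ⟨j', hj', h⟩ | ⟨hs', h⟩
        · cases h
        · rw [hs] at hs'; simp at hs'
    · rintro rfl
      rcases ha' with ⟨j, hj, rfl⟩ | ⟨hs, rfl⟩
      · rcases hc' with ⟨j', hj', h⟩ | h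
        · injection h with _ h _; omega
        · cases h
      · rcases hc' with ⟨j', hj', h⟩ | h
        · cases h
        · injection h with h _ _; exact hii h
    · rintro rfl
      rcases hb' with ⟨j, hj, rfl⟩ | ⟨hs, rfl⟩
      · rcases hc' with ⟨j', hj', h⟩ | h
        · injection h with _ _ h; cases s <;> simp at h
        · cases h
      · rcases hc' with ⟨j', hj', h⟩ | h
        · cases h
        · injection h with h _ _; exact hii h


theorem rail_joins {T : Finset (Vtx p n m)} (hS : Vtx.pole false ∉ T)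
    (hN : Vtx.pole true ∉ T) (i : Fin (p + 1)) (s : Bool) (h : ∀ j, Vtx.up i j s ∉ T) :
    Rch T (.pole false) (.pole true) :=
  (up_south hS i s 0 fun j _ => h j).symm.trans (up_north hN i s 0 fun j _ => h j)

/-- both poles present: they are joined -/
theorem poles_joined (hp : 1 ≤ p) {T : Finset (Vtx p n m)} (hT : T.card ≤ 2)
    (hS : Vtx.pole false ∉ T) (hN : Vtx.pole true ∉ T) : Rch T (.pole false) (.pole true) := by
  by_cases hA : ∀ j, Vtx.up (0 : Fin (p + 1)) j false ∉ T
  · exact rail_joins hS hN _ _ hA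
  by_cases hB : ∀ j, Vtx.up (0 : Fin (p + 1)) j true ∉ T
  · exact rail_joins hS hN _ _ hB
  by_cases hC : ∀ j, Vtx.up (⟨1, by omega⟩ : Fin (p + 1)) j false ∉ T
  · exact rail_joins hS hN _ _ hC
  exfalso
  push Not at hA hB hC
  obtain ⟨a, ha⟩ := hA
  obtain ⟨b, hb⟩ := hB
  obtain ⟨c, hc⟩ := hC
  refine three_false hT ha hb hc ?_ ?_ ?_
  · intro h; injection h with _ _ h; simp at h
  · intro h; injection h with h _ _
    have := congrArg Fin.val h
    simp at this
  · intro h; injection h with _ _ h; simp at h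

/-- only the bottom pole present -/
theorem reach_south {T : Finset (Vtx p n m)} (hT : T.card ≤ 2) (hS : Vtx.pole false ∉ T)
    (hN : Vtx.pole true ∈ T) (x : Vtx p n m) (hx : x ∉ T) : Rch T x (.pole false) := by
  cases x with
  | pole b =>
    cases b
    · exact Rch.refl _ _
    · exact absurd hN hx
  | up i k s =>
    by_cases hA : ∀ j < k, Vtx.up i j s ∉ T
    · refine up_south hS i s k fun j hj => ?_
      rcases hj.lt_or_eq with h | rfl
      · exact hA j h
      · exact hx
    by_cases hC : ∀ j ≤ k, Vtx.up i j (!s) ∉ T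
    · exact (up_cross i s k hx (hC k le_rfl)).trans (up_south hS i (!s) k hC)
    exfalso
    push Not at hA hC
    obtain ⟨a, ha, ha'⟩ := hA
    obtain ⟨c, hc, hc'⟩ := hC
    refine three_false hT ha' hc' hN ?_ ?_ ?_
    · intro h; injection h with _ _ h; cases s <;> simp at h
    · intro h; cases h
    · intro h; cases h
  | lk i k s =>
    by_cases hA : (∀ j < k, Vtx.lk i j s ∉ T) ∧ (s = false → Vtx.up i.castSucc 0 true ∉ T)
    · refine lk_south hS i s k (fun j hj => ?_) hA.2
      rcases hj.lt_or_eq with h | rfl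
      · exact hA.1 j h
      · exact hx
    by_cases hB : (∀ j ≤ k, Vtx.lk i j (!s) ∉ T) ∧ ((!s) = false → Vtx.up i.castSucc 0 true ∉ T)
    · exact (lk_cross i s k hx (hB.1 k le_rfl)).trans (lk_south hS i (!s) k hB.1 hB.2)
    exfalso
    have hA' : ∃ a ∈ T, (∃ j < k, a = Vtx.lk i j s) ∨ (s = false ∧ a = Vtx.up i.castSucc 0 true) := by
      by_contra hc
      push Not at hc
      exact hA ⟨fun j hj h => (hc _ h).1 j hj rfl, fun hs h => (hc _ h).2 hs rfl⟩
    have hB' : ∃ a ∈ T, (∃ j ≤ k, a = Vtx.lk i j (!s)) ∨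
        ((!s) = false ∧ a = Vtx.up i.castSucc 0 true) := by
      by_contra hc
      push Not at hc
      exact hB ⟨fun j hj h => (hc _ h).1 j hj rfl, fun hs h => (hc _ h).2 hs rfl⟩
    obtain ⟨a, ha, ha'⟩ := hA'
    obtain ⟨b, hb, hb'⟩ := hB'
    refine three_false hT ha hb hN ?_ ?_ ?_
    · rintro rfl
      rcases ha' with ⟨j, hj, rfl⟩ | ⟨hs, rfl⟩
      · rcases hb' with ⟨j', hj', h⟩ | ⟨hs, h⟩
        · injection h with _ _ h; cases s <;> simp at h
        · cases h
      · rcases hb' with ⟨j', hj', h⟩ | ⟨hs', h⟩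
        · cases h
        · rw [hs] at hs'; simp at hs'
    · rcases ha' with ⟨j, hj, rfl⟩ | ⟨hs, rfl⟩ <;> intro h <;> cases h
    · rcases hb' with ⟨j, hj, rfl⟩ | ⟨hs, rfl⟩ <;> intro h <;> cases h

/-- only the top pole present -/
theorem reach_north {T : Finset (Vtx p n m)} (hT : T.card ≤ 2) (hS : Vtx.pole false ∈ T)
    (hN : Vtx.pole true ∉ T) (x : Vtx p n m) (hx : x ∉ T) : Rch T x (.pole true) := by
  cases x with
  | pole b =>
    cases b
    · exact absurd hS hx
    · exact Rch.refl _ _
  | up i k s =>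
    by_cases hB : ∀ j, k < j → Vtx.up i j s ∉ T
    · refine up_north hN i s k fun j hj => ?_
      rcases hj.lt_or_eq with h | rfl
      · exact hB j h
      · exact hx
    by_cases hC : ∀ j, k ≤ j → Vtx.up i j (!s) ∉ T
    · exact (up_cross i s k hx (hC k le_rfl)).trans (up_north hN i (!s) k hC)
    exfalso
    push Not at hB hC
    obtain ⟨a, ha, ha'⟩ := hB
    obtain ⟨c, hc, hc'⟩ := hC
    refine three_false hT ha' hc' hS ?_ ?_ ?_
    · intro h; injection h with _ _ h; cases s <;> simp at h
    · intro h; cases h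
    · intro h; cases h
  | lk i k s =>
    -- the upper rail to the left, or the lower rail to the right
    have hL : (∀ j ≤ k, Vtx.lk i j false ∉ T) → (∀ j, Vtx.up i.castSucc j true ∉ T) →
        Rch T (.lk i k false) (.pole true) := fun h1 h2 =>
      (lk_left i false k h1).trans ((Rch.edge' (Edge.lstart i) (h2 0) (h1 0 (Fin.zero_le _))).trans
        (up_north hN i.castSucc true 0 fun j _ => h2 j))
    have hR : (∀ j, k ≤ j → Vtx.lk i j true ∉ T) → (∀ j, Vtx.up i.succ j false ∉ T) →
        Rch T (.lk i k true) (.pole true) := fun h1 h2 =>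
      (lk_end i true k h1 (h2 0)).trans (up_north hN i.succ false 0 fun j _ => h2 j)
    -- one of the two routes is free away from `x`
    by_cases hA : (∀ j ≤ k, (j = k → s = true) → Vtx.lk i j false ∉ T) ∧
        ∀ j, Vtx.up i.castSucc j true ∉ T
    · cases s
      · refine hL (fun j hj => ?_) hA.2
        by_cases hjk : j = k
        · subst hjk; exact hx
        · exact hA.1 j hj fun h => absurd h hjk
      · have h1 : ∀ j ≤ k, Vtx.lk i j false ∉ T := fun j hj => hA.1 j hj fun _ => rfl
        exact (lk_cross i true k hx (h1 k le_rfl)).trans (hL h1 hA.2)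
    by_cases hB : (∀ j, k ≤ j → (j = k → s = false) → Vtx.lk i j true ∉ T) ∧
        ∀ j, Vtx.up i.succ j false ∉ T
    · cases s
      · have h1 : ∀ j, k ≤ j → Vtx.lk i j true ∉ T := fun j hj => hB.1 j hj fun _ => rfl
        exact (lk_cross i false k hx (h1 k le_rfl)).trans (hR h1 hB.2)
      · refine hR (fun j hj => ?_) hB.2
        by_cases hjk : j = k
        · subst hjk; exact hx
        · exact hB.1 j hj fun h => absurd h hjk
    exfalso
    have hA' : ∃ a ∈ T, (∃ j, a = Vtx.lk i j false) ∨ ∃ j, a = Vtx.up i.castSucc j true := by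
      by_contra hc
      push Not at hc
      exact hA ⟨fun j _ _ h => (hc _ h).1 j rfl, fun j h => (hc _ h).2 j rfl⟩
    have hB' : ∃ a ∈ T, (∃ j, a = Vtx.lk i j true) ∨ ∃ j, a = Vtx.up i.succ j false := by
      by_contra hc
      push Not at hc
      exact hB ⟨fun j _ _ h => (hc _ h).1 j rfl, fun j h => (hc _ h).2 j rfl⟩
    obtain ⟨a, ha, ha'⟩ := hA'
    obtain ⟨b, hb, hb'⟩ := hB'
    refine three_false hT ha hb hS ?_ ?_ ?_
    · rintro rfl
      rcases ha' with ⟨j, rfl⟩ | ⟨j, rfl⟩
      · rcases hb' with ⟨j', h⟩ | ⟨j', h⟩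
        · injection h with _ _ h; simp at h
        · cases h
      · rcases hb' with ⟨j', h⟩ | ⟨j', h⟩
        · cases h
        · injection h with _ _ h; simp at h
    · rcases ha' with ⟨j, rfl⟩ | ⟨j, rfl⟩ <;> intro h <;> cases h
    · rcases hb' with ⟨j, rfl⟩ | ⟨j, rfl⟩ <;> intro h <;> cases h

/-- both poles removed -/
theorem reach_corner {T : Finset (Vtx p n m)} (hT : T.card ≤ 2) (hS : Vtx.pole false ∈ T)
    (hN : Vtx.pole true ∈ T) (x : Vtx p n m) (hx : x ∉ T) : Rch T x (.up 0 0 false) := by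
  have hne : ∀ y : Vtx p n m, (∀ b, y ≠ .pole b) → y ∉ T := by
    intro y hy hyT
    exact three_false hT hyT hS hN (hy _) (hy _) (by intro h; cases h)
  have hup : ∀ i k s, Vtx.up i k s ∉ T := fun i k s => hne _ fun b h => by cases h
  have hlk : ∀ i k s, Vtx.lk i k s ∉ T := fun i k s => hne _ fun b h => by cases h
  have h1 : ∀ (i : Fin (p + 1)) (k : Fin (n + 1)) (s : Bool),
      Rch T (.up i k s) (.up i 0 false) := by
    intro i k s
    refine (up_down i s k fun j _ => hup _ _ _).trans ?_
    cases s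
    · exact Rch.refl _ _
    · exact up_cross i true 0 (hup _ _ _) (hup _ _ _)
  have h2 : ∀ i : Fin (p + 1), Rch T (.up i 0 false) (.up 0 0 false) := by
    intro i
    induction i using Fin.induction with
    | zero => exact Rch.refl _ _
    | succ i ih =>
      refine Rch.trans ?_ ih
      refine (lk_end i false 0 (fun j _ => hlk _ _ _) (hup _ _ _)).symm.trans ?_
      exact (Rch.edge' (Edge.lstart i) (hup _ _ _) (hlk _ _ _)).trans
        (up_cross i.castSucc true 0 (hup _ _ _) (hup _ _ _))
  cases x with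
  | pole b => cases b
              · exact absurd hS hx
              · exact absurd hN hx
  | up i k s => exact (h1 i k s).trans (h2 i)
  | lk i k s =>
    exact (lk_end i s k (fun j _ => hlk _ _ _) (hup _ _ _)).trans (h2 _)

/-- a common target for every vertex -/
theorem exists_target (hp : 1 ≤ p) {T : Finset (Vtx p n m)} (hT : T.card ≤ 2) :
    ∃ c, c ∉ T ∧ ∀ x, x ∉ T → Rch T x c := by
  by_cases hS : Vtx.pole false ∈ T
  · by_cases hN : Vtx.pole true ∈ T
    · refine ⟨.up 0 0 false, ?_, fun x hx => reach_corner hT hS hN x hx⟩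
      intro h
      exact three_false hT h hS hN (by intro h; cases h) (by intro h; cases h)
        (by intro h; cases h)
    · exact ⟨.pole true, hN, fun x hx => reach_north hT hS hN x hx⟩
  · by_cases hN : Vtx.pole true ∈ T
    · exact ⟨.pole false, hS, fun x hx => reach_south hT hS hN x hx⟩
    · refine ⟨.pole false, hS, fun x hx => ?_⟩
      rcases reach_pole hT hS hN x hx with h | h
      · exact h
      · exact h.trans (poles_joined hp hT hS hN).symm

theorem reachable_of_Rch {T : Finset (Vtx p n m)} {x y : Vtx p n m} (h : Rch T x y)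
    (hx : x ∈ ((↑T : Set (Vtx p n m))ᶜ)) (hy : y ∈ ((↑T : Set (Vtx p n m))ᶜ)) :
    ((ladGraph p n m).induce ((↑T : Set (Vtx p n m))ᶜ)).Reachable ⟨x, hx⟩ ⟨y, hy⟩ := by
  induction h with
  | refl => exact SimpleGraph.Reachable.refl _
  | tail _ h ih =>
    have hb : _ ∈ ((↑T : Set (Vtx p n m))ᶜ) := h.2.1
    refine (ih hb).trans (SimpleGraph.Adj.reachable ?_)
    exact h.1

theorem ladGraph_threeConn (p n m : ℕ) (hp : 1 ≤ p) : ThreeConn (ladGraph p n m) := by
  classical
  constructor
  · have h : ({.pole false, .pole true, .up 0 0 false, .up 0 0 true} :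
        Finset (Vtx p n m)).card ≤ Fintype.card (Vtx p n m) := Finset.card_le_univ _
    rwa [Finset.card_insert_of_notMem, Finset.card_insert_of_notMem,
      Finset.card_insert_of_notMem, Finset.card_singleton] at h
    · simp
    · simp
    · simp
  · intro T hT
    obtain ⟨c, hc, h⟩ := exists_target hp hT
    rw [SimpleGraph.connected_iff_exists_forall_reachable]
    refine ⟨⟨c, hc⟩, fun x => ?_⟩
    exact (reachable_of_Rch (h x.1 x.2) x.2 hc).symm

end Pool.Agent.LibChromRoots
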