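import Mathlib

/-!
Chromatic roots of 3-connected planar graphs: basic definitions.

`chromSum G z` is the chromatic polynomial of `G` at `z` (Whitney form, as in the frozen statement of
MP_60451a_co). `ThreeConn` and `Planar` are 3-connectivity and planarity as in the frozen statement,
for an arbitrary finite vertex type.

The graph `ladGraph p n m` (family A): two poles `pole false` (bottom, S) and `pole true` (top, N);
`p+1` vertical ladders with `n+1` rungs, whose first rung is joined to S and whose last rung is joined to N;
between consecutive ladders a link, which is a ladder with `m+1` rungs, whose first rung is joined to the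
bottom right vertex of the left ladder and to S, and whose last rung is joined (both ends) to the bottom
left vertex of the right ladder.
-/

set_option autoImplicit false
open Classical

namespace Pool.Agent.LibChromRoots

/-- the chromatic polynomial of `G` at the complex number `z` -/
noncomputable def chromSum {V : Type} [Fintype V] (G : SimpleGraph V) (z : ℂ) : ℂ :=
  ∑ S ∈ G.edgeFinset.powerset,
    (-1 : ℂ) ^ S.card *
      z ^ Nat.card (SimpleGraph.fromEdgeSet (↑S : Set (Sym2 V))).ConnectedComponent

/-- 3-connected -/
def ThreeConn {V : Type} [Fintype V] (G : SimpleGraph V) : Prop :=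
  4 ≤ Fintype.card V ∧ ∀ S : Finset V, S.card ≤ 2 → (G.induce ((↑S : Set V)ᶜ)).Connected

/-- planar: vertices are distinct points of the plane, edges are arcs that meet other vertices and
other edges only in the end points -/
def Planar {V : Type} (G : SimpleGraph V) : Prop :=
  ∃ (f : V → ℂ) (γ : ∀ u v : V, Path (f u) (f v)),
    Function.Injective f ∧
    (∀ u v : V, G.Adj u v →
        Function.Injective ⇑(γ u v) ∧
        ∀ (t : unitInterval) (w : V), γ u v t = f w → w = u ∨ w = v) ∧
    (∀ u v x y : V, G.Adj u v → G.Adj x y → s(u, v) ≠ s(x, y) →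
        ∀ a b : unitInterval, γ u v a = γ x y b → ∃ w : V, γ u v a = f w)

/-- the vertices of the family A -/
inductive Vtx (p n m : ℕ) : Type
  | pole : Bool → Vtx p n m
  | up : Fin (p + 1) → Fin (n + 1) → Bool → Vtx p n m
  | lk : Fin p → Fin (m + 1) → Bool → Vtx p n m
  deriving DecidableEq, Fintype

/-- the edges of the family A (each edge once) -/
inductive Edge (p n m : ℕ) : Vtx p n m → Vtx p n m → Prop
  | bot (i : Fin (p + 1)) (s : Bool) : Edge p n m (.pole false) (.up i 0 s)
  | top (i : Fin (p + 1)) (s : Bool) : Edge p n m (.pole true) (.up i (Fin.last n) s)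
  | rung (i : Fin (p + 1)) (k : Fin (n + 1)) : Edge p n m (.up i k false) (.up i k true)
  | rail (i : Fin (p + 1)) (k : Fin n) (s : Bool) : Edge p n m (.up i k.castSucc s) (.up i k.succ s)
  | lstart (i : Fin p) : Edge p n m (.up i.castSucc 0 true) (.lk i 0 false)
  | lpole (i : Fin p) : Edge p n m (.pole false) (.lk i 0 true)
  | lrung (i : Fin p) (k : Fin (m + 1)) : Edge p n m (.lk i k false) (.lk i k true)
  | lrail (i : Fin p) (k : Fin m) (s : Bool) : Edge p n m (.lk i k.castSucc s) (.lk i k.succ s)
  | lend (i : Fin p) (s : Bool) : Edge p n m (.lk i (Fin.last m) s) (.up i.succ 0 false)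

theorem Edge.ne {p n m : ℕ} {u v : Vtx p n m} (h : Edge p n m u v) : u ≠ v := by
  cases h <;> simp [Fin.ext_iff]

/-- the graph of the family A -/
def ladGraph (p n m : ℕ) : SimpleGraph (Vtx p n m) where
  Adj u v := Edge p n m u v ∨ Edge p n m v u
  symm := ⟨fun _ _ h => h.symm⟩
  loopless := ⟨fun u h => by
    rcases h with h | h <;> exact h.ne rfl⟩

end Pool.Agent.LibChromRoots
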