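import Mathlib
import Pool.Agent.LibChromRoots.Defs

/-!
Planarity of the graphs `ladGraph p n m` by an explicit straight line drawing.
-/

set_option autoImplicit false

namespace Pool.Agent.LibChromRoots

namespace Plan

variable {p n m : ℕ}

/-- first coordinate of the drawing -/
def cx : Vtx p n m → ℤ
  | .pole _ => 0
  | .up i _ s => (i : ℕ) * ((m : ℤ) + 3) + (if s then 1 else 0)
  | .lk i k _ => (i : ℕ) * ((m : ℤ) + 3) + (2 + ((k : ℕ) : ℤ))

/-- second coordinate of the drawing -/
def cy : Vtx p n m → ℤ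
  | .pole s => if s then (n : ℤ) + 1 else -1
  | .up _ k _ => ((k : ℕ) : ℤ)
  | .lk _ _ s => if s then 0 else 1

theorem divmod (M a a' r r' : ℤ) (hr : 0 ≤ r) (hr' : 0 ≤ r') (h1 : r < M) (h1' : r' < M)
    (h : a * M + r = a' * M + r') : a = a' ∧ r = r' := by
  have e1 : (a * M + r) % M = r := by
    rw [add_comm, Int.add_mul_emod_self_right, Int.emod_eq_of_lt hr h1]
  have e2 : (a' * M + r') % M = r' := by
    rw [add_comm, Int.add_mul_emod_self_right, Int.emod_eq_of_lt hr' h1']
  have hrr : r = r' := by rw [← e1, ← e2, h]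
  refine ⟨?_, hrr⟩
  have hM : M ≠ 0 := by omega
  have : a * M = a' * M := by linarith
  exact mul_right_cancel₀ hM this

theorem cxy_inj (hn : 1 ≤ n) (u v : Vtx p n m) (hx : cx u = cx v) (hy : cy u = cy v) : u = v := by
  cases u with
  | pole s =>
    cases v with
    | pole s' =>
      cases s <;> cases s'
      · rfl
      · simp [cy] at hy; omega
      · simp [cy] at hy; omega
      · rfl
    | up i k s' =>
      have := k.2
      cases s <;> simp [cy] at hy <;> omega
    | lk i k s' =>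
      cases s <;> cases s' <;> simp [cy] at hy <;> omega
  | up i k s =>
    have hk := k.2
    cases v with
    | pole s' => cases s' <;> simp [cy] at hy <;> omega
    | up i' k' s' =>
      simp only [cx] at hx
      have hd := divmod ((m : ℤ) + 3) _ _ _ _ (by split_ifs <;> norm_num) (by split_ifs <;> norm_num)
        (by split_ifs <;> omega) (by split_ifs <;> omega) hx
      simp only [cy] at hy
      obtain ⟨h1, h2⟩ := hd
      have hi : i = i' := by apply Fin.ext; omega
      have hk' : k = k' := by apply Fin.ext; omega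
      have hs : s = s' := by cases s <;> cases s' <;> simp_all
      subst hi; subst hk'; subst hs; rfl
    | lk i' k' s' =>
      simp only [cx] at hx
      have hk' := k'.2
      have hd := divmod ((m : ℤ) + 3) _ _ _ _ (by split_ifs <;> norm_num) (by omega)
        (by split_ifs <;> omega) (by omega) hx
      exfalso
      obtain ⟨_, h2⟩ := hd
      split_ifs at h2 <;> omega
  | lk i k s =>
    have hk := k.2
    cases v with
    | pole s' =>
      cases s <;> cases s' <;> simp [cy] at hy <;> omega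
    | up i' k' s' =>
      simp only [cx] at hx
      have hd := divmod ((m : ℤ) + 3) _ _ _ _ (by omega) (by split_ifs <;> norm_num)
        (by omega) (by split_ifs <;> omega) hx
      exfalso
      obtain ⟨_, h2⟩ := hd
      split_ifs at h2 <;> omega
    | lk i' k' s' =>
      simp only [cx] at hx
      have hk' := k'.2
      have hd := divmod ((m : ℤ) + 3) _ _ _ _ (by omega) (by omega) (by omega) (by omega) hx
      obtain ⟨h1, h2⟩ := hd
      have hi : i = i' := by apply Fin.ext; omega
      have hk' : k = k' := by apply Fin.ext; omega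
      have hs : s = s' := by cases s <;> cases s' <;> simp_all [cy]
      subst hi; subst hk'; subst hs; rfl

/-- the kinds of edges of the drawing -/
inductive Kind (u v : Vtx p n m) : Prop
  | fanS (h1 : cx u = 0) (h2 : cy u = -1) (h3 : cy v = 0)
  | fanN (h1 : cx u = 0) (h2 : cy u = (n : ℤ) + 1) (h3 : cy v = n)
  | hor (h1 : cx v = cx u + 1) (h2 : cy v = cy u) (h3 : 0 ≤ cy u) (h4 : cy u ≤ n)
  | verUp (h1 : cx v = cx u) (h2 : cy v = cy u + 1) (h3 : 0 ≤ cy u) (h4 : cy u + 1 ≤ n)
  | verDn (h1 : cx v = cx u) (h2 : cy v = 0) (h3 : cy u = 1)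
  | diagUp (i : ℤ) (h0 : cx u = i * ((m : ℤ) + 3) + 1) (h1 : cx v = cx u + 1) (h2 : cy v = 1)
      (h3 : cy u = 0)
  | diagDn (i : ℤ) (h0 : cx u = i * ((m : ℤ) + 3) + (m + 2)) (h1 : cx v = cx u + 1) (h2 : cy v = 0)
      (h3 : cy u = 1)

theorem kind_of_edge (hn : 1 ≤ n) {u v : Vtx p n m} (h : Edge p n m u v) : Kind u v := by
  cases h with
  | bot i s => exact .fanS rfl rfl (by simp [cy])
  | top i s => exact .fanN rfl rfl (by simp [cy])
  | rung i k =>
    have := k.2
    exact .hor (by simp [cx]) rfl (by simp [cy]) (by simp [cy]; omega)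
  | rail i k s =>
    have := k.2
    exact .verUp (by simp [cx]) (by simp [cy]) (by simp [cy])
      (by simp only [cy, Fin.val_castSucc]; omega)
  | lstart i => exact .diagUp (i : ℕ) (by simp [cx]) (by simp [cx]; ring) (by simp [cy]) (by simp [cy])
  | lpole i => exact .fanS rfl rfl (by simp [cy])
  | lrung i k => exact .verDn (by simp [cx]) (by simp [cy]) (by simp [cy])
  | lrail i k s =>
    exact .hor (by simp [cx]; ring) rfl (by cases s <;> simp [cy])
      (by cases s <;> simp only [cy] <;> simp <;> omega)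
  | lend i s =>
    cases s with
    | false =>
      exact .diagDn (i : ℕ) (by simp [cx]; ring) (by simp [cx]; ring) (by simp [cy]) (by simp [cy])
    | true =>
      exact .hor (by simp [cx]; ring) (by simp [cy]) (by simp [cy]) (by simp [cy])

/-- a point in the relative interior of the segment of `u` and `v` -/
def Inner (u v : Vtx p n m) (x y : ℝ) : Prop :=
  ∃ t : ℝ, 0 < t ∧ t < 1 ∧ x = cx u + t * ((cx v : ℝ) - cx u) ∧ y = cy u + t * ((cy v : ℝ) - cy u)

theorem Inner.symm {u v : Vtx p n m} {x y : ℝ} (h : Inner u v x y) : Inner v u x y := by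
  obtain ⟨t, h0, h1, h2, h3⟩ := h
  refine ⟨1 - t, by linarith, by linarith, ?_, ?_⟩
  · rw [h2]; ring
  · rw [h3]; ring

theorem floor_fract {x : ℝ} {a : ℤ} (h1 : (a : ℝ) < x) (h2 : x < a + 1) :
    ⌊x⌋ = a ∧ Int.fract x ≠ 0 := by
  have hf : ⌊x⌋ = a := Int.floor_eq_iff.2 ⟨h1.le, h2⟩
  refine ⟨hf, ?_⟩
  unfold Int.fract
  rw [hf]
  intro h
  linarith

theorem floor_int {x : ℝ} {a : ℤ} (h : x = a) : ⌊x⌋ = a ∧ Int.fract x = 0 := by
  subst h; simp

/-- position of an inner point of an edge -/
inductive Sig (u v : Vtx p n m) (x y : ℝ) : Prop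
  | fanS (a1 : ⌊y⌋ = -1) (a2 : Int.fract y ≠ 0) (a3 : x = cx v * (1 + y)) (h1 : cx u = 0)
      (h2 : cy u = -1) (h3 : cy v = 0) (h4 : 1 + y ≠ 0)
  | fanN (a1 : ⌊y⌋ = n) (a2 : Int.fract y ≠ 0) (a3 : x = cx v * (n + 1 - y)) (h1 : cx u = 0)
      (h2 : cy u = (n : ℤ) + 1) (h3 : cy v = n) (h4 : (n : ℝ) + 1 - y ≠ 0)
  | hor (a1 : Int.fract y = 0) (a2 : Int.fract x ≠ 0) (h1 : cx u = ⌊x⌋) (h2 : cx v = ⌊x⌋ + 1)
      (h3 : cy u = ⌊y⌋) (h4 : cy v = ⌊y⌋)
  | verUp (a1 : Int.fract y ≠ 0) (a2 : Int.fract x = 0) (a3 : 0 ≤ ⌊y⌋) (a4 : ⌊y⌋ < n)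
      (h1 : cx u = ⌊x⌋) (h2 : cx v = ⌊x⌋) (h3 : cy u = ⌊y⌋) (h4 : cy v = ⌊y⌋ + 1)
  | verDn (a1 : Int.fract y ≠ 0) (a2 : Int.fract x = 0) (a3 : 0 ≤ ⌊y⌋) (a4 : ⌊y⌋ < n)
      (h1 : cx u = ⌊x⌋) (h2 : cx v = ⌊x⌋) (h3 : cy u = ⌊y⌋ + 1) (h4 : cy v = ⌊y⌋)
  | diagUp (a1 : Int.fract y ≠ 0) (a2 : Int.fract x ≠ 0) (a3 : 0 ≤ ⌊y⌋) (a4 : ⌊y⌋ < n)
      (h1 : cx u = ⌊x⌋) (h2 : cx v = ⌊x⌋ + 1) (h3 : cy u = ⌊y⌋) (h4 : cy v = ⌊y⌋ + 1)
      (i : ℤ) (h0 : ⌊x⌋ = i * ((m : ℤ) + 3) + 1)
  | diagDn (a1 : Int.fract y ≠ 0) (a2 : Int.fract x ≠ 0) (a3 : 0 ≤ ⌊y⌋) (a4 : ⌊y⌋ < n)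
      (h1 : cx u = ⌊x⌋) (h2 : cx v = ⌊x⌋ + 1) (h3 : cy u = ⌊y⌋ + 1) (h4 : cy v = ⌊y⌋)
      (i : ℤ) (h0 : ⌊x⌋ = i * ((m : ℤ) + 3) + (m + 2))

theorem sig_of_inner (hn : 1 ≤ n) {u v : Vtx p n m} (h : Edge p n m u v) {x y : ℝ}
    (hi : Inner u v x y) : Sig u v x y := by
  obtain ⟨t, t0, t1, hx, hy⟩ := hi
  cases kind_of_edge hn h with
  | fanS h1 h2 h3 =>
    rw [h1] at hx; rw [h2, h3] at hy
    push_cast at hx hy
    have e := floor_fract (x := y) (a := -1) (by push_cast; linarith) (by push_cast; linarith)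
    exact .fanS e.1 e.2 (by rw [hx, hy]; ring) h1 h2 h3 (by rw [hy]; intro h; linarith)
  | fanN h1 h2 h3 =>
    rw [h1] at hx; rw [h2, h3] at hy
    push_cast at hx hy
    have e := floor_fract (x := y) (a := n) (by push_cast; linarith) (by push_cast; linarith)
    exact .fanN e.1 e.2 (by rw [hx, hy]; ring) h1 h2 h3 (by rw [hy]; intro h; linarith)
  | hor h1 h2 h3 h4 =>
    rw [h1] at hx; rw [h2] at hy
    push_cast at hx hy
    have e := floor_fract (x := x) (a := cx u) (by linarith) (by linarith)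
    have e' := floor_int (x := y) (a := cy u) (by linarith)
    exact .hor e'.2 e.2 e.1.symm (by rw [e.1, h1]) e'.1.symm (by rw [e'.1, h2])
  | verUp h1 h2 h3 h4 =>
    rw [h1] at hx; rw [h2] at hy
    push_cast at hx hy
    have e := floor_int (x := x) (a := cx u) (by linarith)
    have e' := floor_fract (x := y) (a := cy u) (by linarith) (by linarith)
    exact .verUp e'.2 e.2 (by omega) (by omega) e.1.symm (by rw [e.1, h1]) e'.1.symm
      (by rw [e'.1, h2])
  | verDn h1 h2 h3 =>
    rw [h1] at hx; rw [h2, h3] at hy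
    push_cast at hx hy
    have e := floor_int (x := x) (a := cx u) (by linarith)
    have e' := floor_fract (x := y) (a := 0) (by push_cast; linarith) (by push_cast; linarith)
    exact .verDn e'.2 e.2 (by omega) (by omega) e.1.symm (by rw [e.1, h1]) (by rw [e'.1, h3]; rfl)
      (by rw [e'.1, h2])
  | diagUp i h0 h1 h2 h3 =>
    rw [h1] at hx; rw [h2, h3] at hy
    push_cast at hx hy
    have e := floor_fract (x := x) (a := cx u) (by linarith) (by linarith)
    have e' := floor_fract (x := y) (a := 0) (by push_cast; linarith) (by push_cast; linarith)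
    exact .diagUp e'.2 e.2 (by omega) (by omega) e.1.symm (by rw [e.1, h1]) (by rw [e'.1, h3])
      (by rw [e'.1, h2]; rfl) i (by rw [e.1, h0])
  | diagDn i h0 h1 h2 h3 =>
    rw [h1] at hx; rw [h2, h3] at hy
    push_cast at hx hy
    have e := floor_fract (x := x) (a := cx u) (by linarith) (by linarith)
    have e' := floor_fract (x := y) (a := 0) (by push_cast; linarith) (by push_cast; linarith)
    exact .diagDn e'.2 e.2 (by omega) (by omega) e.1.symm (by rw [e.1, h1])
      (by rw [e'.1, h3]; rfl) (by rw [e'.1, h2]) i (by rw [e.1, h0])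

theorem sig_not_int {u v : Vtx p n m} {x y : ℝ} (h : Sig u v x y) {a b : ℤ} (hx : x = a)
    (hy : y = b) : False := by
  have ex := (floor_int hx).2
  have ey := (floor_int hy).2
  cases h <;> contradiction

theorem sig_det (hn : 1 ≤ n) {u v u' v' : Vtx p n m} {x y : ℝ} (h : Sig u v x y)
    (h' : Sig u' v' x y) : s(u, v) = s(u', v') := by
  have key : ∀ {a b c d : Vtx p n m}, cx a = cx c → cy a = cy c → cx b = cx d → cy b = cy d →
      s(a, b) = s(c, d) := by
    intro a b c d h1 h2 h3 h4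
    rw [cxy_inj hn a c h1 h2, cxy_inj hn b d h3 h4]
  have key' : ∀ {a b c d : Vtx p n m}, cx a = cx d → cy a = cy d → cx b = cx c → cy b = cy c →
      s(a, b) = s(c, d) := by
    intro a b c d h1 h2 h3 h4
    rw [cxy_inj hn a d h1 h2, cxy_inj hn b c h3 h4, Sym2.eq_swap]
  cases h with
  | fanS a1 a2 a3 h1 h2 h3 h4 =>
    cases h' with
    | fanS b1 b2 b3 g1 g2 g3 g4 =>
      refine key (by omega) (by omega) ?_ (by omega)
      rw [a3] at b3
      exact_mod_cast mul_right_cancel₀ h4 b3
    | hor => contradiction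
    | _ => exfalso; omega
  | fanN a1 a2 a3 h1 h2 h3 h4 =>
    cases h' with
    | fanN b1 b2 b3 g1 g2 g3 g4 =>
      refine key (by omega) (by omega) ?_ (by omega)
      rw [a3] at b3
      exact_mod_cast mul_right_cancel₀ h4 b3
    | hor => contradiction
    | _ => exfalso; omega
  | hor a1 a2 h1 h2 h3 h4 =>
    cases h' with
    | hor b1 b2 g1 g2 g3 g4 => exact key (by omega) (by omega) (by omega) (by omega)
    | _ => contradiction
  | verUp a1 a2 a3 a4 h1 h2 h3 h4 =>
    cases h' with
    | fanS => exfalso; omega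
    | fanN => exfalso; omega
    | verUp => exact key (by omega) (by omega) (by omega) (by omega)
    | verDn => exact key' (by omega) (by omega) (by omega) (by omega)
    | _ => contradiction
  | verDn a1 a2 a3 a4 h1 h2 h3 h4 =>
    cases h' with
    | fanS => exfalso; omega
    | fanN => exfalso; omega
    | verUp => exact key' (by omega) (by omega) (by omega) (by omega)
    | verDn => exact key (by omega) (by omega) (by omega) (by omega)
    | _ => contradiction
  | diagUp a1 a2 a3 a4 h1 h2 h3 h4 i h0 =>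
    cases h' with
    | fanS => exfalso; omega
    | fanN => exfalso; omega
    | diagUp => exact key (by omega) (by omega) (by omega) (by omega)
    | diagDn b1 b2 b3 b4 g1 g2 g3 g4 i' g0 =>
      exfalso
      rw [h0] at g0
      have := (divmod ((m : ℤ) + 3) _ _ _ _ (by omega) (by omega) (by omega) (by omega) g0).2
      omega
    | _ => contradiction
  | diagDn a1 a2 a3 a4 h1 h2 h3 h4 i h0 =>
    cases h' with
    | fanS => exfalso; omega
    | fanN => exfalso; omega
    | diagDn => exact key (by omega) (by omega) (by omega) (by omega)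
    | diagUp b1 b2 b3 b4 g1 g2 g3 g4 i' g0 =>
      exfalso
      rw [h0] at g0
      have := (divmod ((m : ℤ) + 3) _ _ _ _ (by omega) (by omega) (by omega) (by omega) g0).2
      omega
    | _ => contradiction

/-- the drawing -/
noncomputable def pos (u : Vtx p n m) : ℂ := ⟨cx u, cy u⟩

theorem pos_re (u : Vtx p n m) : (pos u).re = cx u := rfl

theorem pos_im (u : Vtx p n m) : (pos u).im = cy u := rfl

theorem pos_inj (hn : 1 ≤ n) : Function.Injective (pos : Vtx p n m → ℂ) := by
  intro u v h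
  have h1 := congrArg Complex.re h
  have h2 := congrArg Complex.im h
  rw [pos_re, pos_re] at h1
  rw [pos_im, pos_im] at h2
  exact cxy_inj hn u v (by exact_mod_cast h1) (by exact_mod_cast h2)

/-- the straight segment from `pos u` to `pos v` -/
noncomputable def seg (u v : Vtx p n m) : Path (pos u) (pos v) where
  toFun t := pos u + (t : ℝ) * (pos v - pos u)
  continuous_toFun := by fun_prop
  source' := by simp
  target' := by simp

theorem seg_apply (u v : Vtx p n m) (t : unitInterval) :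
    seg u v t = pos u + (t : ℝ) * (pos v - pos u) := rfl

theorem seg_re (u v : Vtx p n m) (t : unitInterval) :
    (seg u v t).re = cx u + (t : ℝ) * ((cx v : ℝ) - cx u) := by
  simp [seg_apply, pos_re]

theorem seg_im (u v : Vtx p n m) (t : unitInterval) :
    (seg u v t).im = cy u + (t : ℝ) * ((cy v : ℝ) - cy u) := by
  simp [seg_apply, pos_im]

theorem seg_cases (u v : Vtx p n m) (t : unitInterval) :
    seg u v t = pos u ∨ seg u v t = pos v ∨ Inner u v (seg u v t).re (seg u v t).im := by
  rcases eq_or_lt_of_le t.2.1 with h0 | h0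
  · left; rw [seg_apply, ← h0]; simp
  rcases eq_or_lt_of_le t.2.2 with h1 | h1
  · right; left; rw [seg_apply, h1]; simp
  · right; right
    exact ⟨t, h0, h1, seg_re u v t, seg_im u v t⟩

theorem inner_adj_sig (hn : 1 ≤ n) {u v : Vtx p n m} (h : (ladGraph p n m).Adj u v) {x y : ℝ}
    (hi : Inner u v x y) : ∃ a b : Vtx p n m, s(a, b) = s(u, v) ∧ Sig a b x y := by
  rcases h with h | h
  · exact ⟨u, v, rfl, sig_of_inner hn h hi⟩
  · exact ⟨v, u, Sym2.eq_swap, sig_of_inner hn h hi.symm⟩

end Plan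

open Plan in
theorem ladGraph_planar (p n m : ℕ) (hn : 1 ≤ n) : Planar (ladGraph p n m) := by
  refine ⟨pos, seg, pos_inj hn, ?_, ?_⟩
  · intro u v huv
    have hne : pos v - pos u ≠ 0 := by
      intro h
      exact huv.ne (pos_inj hn (sub_eq_zero.1 h)).symm
    refine ⟨?_, ?_⟩
    · intro s t hst
      rw [seg_apply, seg_apply] at hst
      have h1 := mul_right_cancel₀ hne (add_left_cancel hst)
      exact Subtype.ext (by exact_mod_cast h1)
    · intro t w hw
      rcases seg_cases u v t with h | h | h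
      · left; exact (pos_inj hn (h.symm.trans hw)).symm
      · right; exact (pos_inj hn (h.symm.trans hw)).symm
      · exfalso
        obtain ⟨a, b, -, hs⟩ := inner_adj_sig hn huv h
        rw [hw] at hs
        exact sig_not_int hs (pos_re w) (pos_im w)
  · intro u v x y huv hxy hne s t hst
    rcases seg_cases u v s with h | h | h
    · exact ⟨u, h⟩
    · exact ⟨v, h⟩
    rcases seg_cases x y t with h' | h' | h'
    · exact ⟨x, hst.trans h'⟩
    · exact ⟨y, hst.trans h'⟩
    exfalso
    rw [← hst] at h'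
    obtain ⟨a, b, hab, hs⟩ := inner_adj_sig hn huv h
    obtain ⟨a', b', hab', hs'⟩ := inner_adj_sig hn hxy h'
    exact hne (by rw [← hab, ← hab', sig_det hn hs hs'])

end Pool.Agent.LibChromRoots
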