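import Pool.Agent.LibChromRoots.CountG
import Pool.Agent.LibChromRoots.Conn
import Pool.Agent.LibChromRoots.Planarity
import Pool.Agent.Ch3.Transport

/-!
Density of chromatic roots of 3-connected planar graphs in `{z : |z-3| < |z^2-3z+3|}`.
-/

set_option autoImplicit false
open Filter Topology Metric Classical

namespace Pool.Agent.LibChromRoots

/-- the correction parameter of a link -/
noncomputable def ep (m : ℕ) (z : ℂ) : ℂ := (3 - z) ^ (m + 1) / aSeq z (m + 1)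

theorem exists_chromPoly (p n m : ℕ) (N : Finset (Fin p) → Polynomial ℂ)
    (hN : ∀ T, ∀ q : ℕ, (N T).eval (q : ℂ) = cnt p n q T) :
    ∃ P : Polynomial ℂ, Pool.Agent.Ch3.IsChromaticPoly (ladGraph p n m) P ∧
      ∀ z : ℂ, P.eval z = ∑ T : Finset (Fin p), (-(3 - z) ^ (m + 1)) ^ T.card *
        (aSeq z (m + 1)) ^ (p - T.card) * (N T).eval z := by
  obtain ⟨A, hA⟩ := aSeq_poly (m + 1)
  refine ⟨∑ T : Finset (Fin p), (-(3 - Polynomial.X) ^ (m + 1)) ^ T.card * A ^ (p - T.card) * N T, ?_, ?_⟩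
  · intro k
    have h1 := card_col p n m k
    have h2 : (Nat.card ((ladGraph p n m).Coloring (Fin k)) : ℂ) =
        (Nat.card {c : Vtx p n m → Fin k // IsCol (ladGraph p n m) k c} : ℂ) := by
      congr 1
      apply Nat.card_congr
      refine ⟨fun c => ⟨fun v => c v, fun u v huv => c.valid huv⟩,
        fun c => ⟨fun v => c.1 v, fun {u v} huv => c.2 u v huv⟩, ?_, ?_⟩
      · intro c; rfl
      · intro c; rfl
    rw [h2, h1, Polynomial.eval_finsetSum]
    apply Finset.sum_congr rfl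
    intro T _
    simp [hA, hN]
  · intro z
    rw [Polynomial.eval_finsetSum]
    apply Finset.sum_congr rfl
    intro T _
    simp [hA]

theorem ep_small (K : Set ℂ) (hK : IsCompact K) (hne : K.Nonempty)
    (h1 : ∀ z ∈ K, ‖z - 3‖ < ‖z ^ 2 - 3 * z + 3‖) (h2 : ∀ z ∈ K, z ≠ 2)
    (δ : ℝ) (hδ : 0 < δ) : ∀ᶠ m : ℕ in atTop, ∀ z ∈ K, aSeq z (m + 1) ≠ 0 ∧ ‖ep m z‖ ≤ δ := by
  have htne : ∀ z ∈ K, z ^ 2 - 3 * z + 3 ≠ 0 := by
    intro z hz h
    have := h1 z hz
    rw [h, norm_zero] at this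
    exact absurd this (not_lt.2 (norm_nonneg _))
  have hc1 : ContinuousOn (fun z : ℂ => ‖z - 3‖ / ‖z ^ 2 - 3 * z + 3‖) K := by
    apply ContinuousOn.div
    · fun_prop
    · fun_prop
    · intro z hz
      exact norm_ne_zero_iff.2 (htne z hz)
  obtain ⟨za, hza, hmax⟩ := hK.exists_isMaxOn hne hc1
  set ρ : ℝ := ‖za - 3‖ / ‖za ^ 2 - 3 * za + 3‖ with hρ
  have hρ0 : 0 ≤ ρ := by positivity
  have hρ1 : ρ < 1 := by
    rw [hρ, div_lt_one (norm_pos_iff.2 (htne za hza))]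
    exact h1 za hza
  have hle : ∀ z ∈ K, ‖3 - z‖ ≤ ρ * ‖z ^ 2 - 3 * z + 3‖ := by
    intro z hz
    have := hmax hz
    simp only [Set.mem_ofPred_eq] at this
    rw [div_le_iff₀ (norm_pos_iff.2 (htne z hz))] at this
    rw [norm_sub_rev]
    exact this
  obtain ⟨zb, hzb, hmin⟩ := hK.exists_isMinOn hne (f := fun z : ℂ => ‖z - 2‖) (by fun_prop)
  set c : ℝ := ‖zb - 2‖ with hcdef
  have hc : 0 < c := norm_pos_iff.2 (sub_ne_zero.2 (h2 zb hzb))
  have hcle : ∀ z ∈ K, c ≤ ‖z - 2‖ := fun z hz => hmin hz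
  obtain ⟨zc, hzc, hmaxM⟩ := hK.exists_isMaxOn hne (f := fun z : ℂ => ‖z‖) (by fun_prop)
  set M : ℝ := ‖zc‖ with hM
  have hMle : ∀ z ∈ K, ‖z‖ ≤ M := fun z hz => hmaxM hz
  have hM0 : 0 ≤ M := norm_nonneg _
  have hlim : Tendsto (fun m : ℕ => ρ ^ (m + 1)) atTop (𝓝 0) :=
    (tendsto_pow_atTop_nhds_zero_of_lt_one hρ0 hρ1).comp (tendsto_add_atTop_nat 1)
  have e1 : ∀ᶠ m : ℕ in atTop, ρ ^ (m + 1) < c / 4 := hlim.eventually (gt_mem_nhds (by positivity))
  have e2 : ∀ᶠ m : ℕ in atTop, ρ ^ (m + 1) < δ * (c / 2) / (M + 1) :=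
    hlim.eventually (gt_mem_nhds (by positivity))
  filter_upwards [e1, e2] with m hm1 hm2 z hz
  set k := m + 1 with hk
  set t : ℂ := z ^ 2 - 3 * z + 3 with ht
  have htp : 0 < ‖t‖ := norm_pos_iff.2 (htne z hz)
  have h3 : ‖3 - z‖ ^ k ≤ ρ ^ k * ‖t‖ ^ k := by
    rw [← mul_pow]
    exact pow_le_pow_left₀ (norm_nonneg _) (hle z hz) k
  have h4 : ‖z * aSeq z k‖ ≥ ‖t‖ ^ k * (c / 2) := by
    rw [mul_aSeq]
    have h5 : ‖(z - 2) * t ^ k‖ - ‖2 * (3 - z) ^ k‖ ≤ ‖(z - 2) * t ^ k + 2 * (3 - z) ^ k‖ := by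
      have := norm_sub_norm_le ((z - 2) * t ^ k) (-(2 * (3 - z) ^ k))
      rw [norm_neg, sub_neg_eq_add] at this
      exact this
    have h6 : ‖(z - 2) * t ^ k‖ = ‖z - 2‖ * ‖t‖ ^ k := by rw [norm_mul, norm_pow]
    have h7 : ‖2 * (3 - z) ^ k‖ = 2 * ‖3 - z‖ ^ k := by rw [norm_mul, norm_pow]; simp
    rw [h6, h7] at h5
    have h8 : c * ‖t‖ ^ k ≤ ‖z - 2‖ * ‖t‖ ^ k := by
      apply mul_le_mul_of_nonneg_right (hcle z hz) (by positivity)
    have h9 : ρ ^ k * ‖t‖ ^ k ≤ c / 4 * ‖t‖ ^ k :=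
      mul_le_mul_of_nonneg_right hm1.le (by positivity)
    nlinarith
  have h5 : z * aSeq z k ≠ 0 := by
    intro h
    rw [h, norm_zero] at h4
    have : 0 < ‖t‖ ^ k * (c / 2) := by positivity
    linarith
  refine ⟨fun h => h5 (by rw [h, mul_zero]), ?_⟩
  have hz0 : z ≠ 0 := fun h => h5 (by rw [h, zero_mul])
  have h6 : ep m z = z * (3 - z) ^ k / (z * aSeq z k) := by
    rw [ep, ← hk, mul_div_mul_left _ _ hz0]
  rw [h6, norm_div, norm_mul, norm_pow, div_le_iff₀ (norm_pos_iff.2 h5)]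
  have h7 : ‖z‖ * ‖3 - z‖ ^ k ≤ (M + 1) * (ρ ^ k * ‖t‖ ^ k) := by
    apply mul_le_mul (by linarith [hMle z hz]) h3 (by positivity) (by positivity)
  have h8 : (M + 1) * (ρ ^ k * ‖t‖ ^ k) ≤ δ * (‖t‖ ^ k * (c / 2)) := by
    have : ρ ^ k * (M + 1) ≤ δ * (c / 2) := by
      rw [lt_div_iff₀ (by positivity)] at hm2
      exact hm2.le
    calc (M + 1) * (ρ ^ k * ‖t‖ ^ k) = (ρ ^ k * (M + 1)) * ‖t‖ ^ k := by ring
      _ ≤ (δ * (c / 2)) * ‖t‖ ^ k := mul_le_mul_of_nonneg_right this (by positivity)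
      _ = _ := by ring
  calc ‖z‖ * ‖3 - z‖ ^ k ≤ _ := h7
    _ ≤ _ := h8
    _ ≤ δ * ‖z * aSeq z k‖ := mul_le_mul_of_nonneg_left h4 hδ.le

theorem aSeq_three (n : ℕ) (hn : 1 ≤ n) : aSeq 3 n ≠ 0 := by
  have h := mul_aSeq 3 n
  intro h0
  rw [h0, mul_zero, sub_self, zero_pow (by omega), mul_zero, add_zero] at h
  have : (3 - 2 : ℂ) * (3 ^ 2 - 3 * 3 + 3) ^ n ≠ 0 := by
    apply mul_ne_zero (by norm_num)
    exact pow_ne_zero _ (by norm_num)
  exact this h.symm

theorem near_zero (p n : ℕ) (hn : 1 ≤ n) (hp : 1 ≤ p) (z1 : ℂ)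
    (h1 : ‖z1 - 3‖ < ‖z1 ^ 2 - 3 * z1 + 3‖) (h2 : z1 ≠ 2)
    (h3 : ((z1 - 1) * (z1 - 2) * aSeq z1 n) ^ (p + 1)
      + (z1 - 1) * ((z1 - 1) * (z1 - 2) * aSeq z1 n - 2 * (z1 - 2) * (3 - z1) ^ n) ^ (p + 1) = 0)
    (ε : ℝ) (hε : 0 < ε) : ∃ z ∈ Pool.Agent.Ch3.rootSet, ‖z - z1‖ ≤ ε := by
  choose N hN using (fun T : Finset (Fin p) => cnt_poly p n T)
  obtain ⟨A, hA⟩ := aSeq_poly n
  have hN0 : N ∅ = Polynomial.X * ((Polynomial.X - 1) * (Polynomial.X - 2) * A) ^ (p + 1) +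
      Polynomial.X * (Polynomial.X - 1) *
      ((Polynomial.X - 1) * (Polynomial.X - 2) * A - 2 * (Polynomial.X - 2) * (3 - Polynomial.X) ^ n) ^ (p + 1) := by
    apply poly_eq_of_nat
    intro q
    rw [hN, cnt_empty]
    simp [hA]
  have hev : ∀ z : ℂ, (N ∅).eval z = z * ((z - 1) * (z - 2) * aSeq z n) ^ (p + 1) +
      z * (z - 1) * ((z - 1) * (z - 2) * aSeq z n - 2 * (z - 2) * (3 - z) ^ n) ^ (p + 1) := by
    intro z
    rw [hN0]
    simp [hA]
  have hne : N ∅ ≠ 0 := by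
    intro h
    have := hev 3
    rw [h, Polynomial.eval_zero, sub_self, zero_pow (by omega : n ≠ 0)] at this
    have h4 : (3 : ℂ) * ((3 - 1) * (3 - 2) * aSeq 3 n) ^ (p + 1) +
        3 * (3 - 1) * ((3 - 1) * (3 - 2) * aSeq 3 n - 2 * (3 - 2) * 0) ^ (p + 1) =
        9 * (2 * aSeq 3 n) ^ (p + 1) := by
      have e1 : ((3 : ℂ) - 1) * (3 - 2) * aSeq 3 n = 2 * aSeq 3 n := by ring
      have e2 : ((3 : ℂ) - 1) * (3 - 2) * aSeq 3 n - 2 * (3 - 2) * 0 = 2 * aSeq 3 n := by ring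
      rw [e2, e1]
      ring
    rw [h4] at this
    have h5 : (9 : ℂ) * (2 * aSeq 3 n) ^ (p + 1) ≠ 0 :=
      mul_ne_zero (by norm_num) (pow_ne_zero _ (mul_ne_zero (by norm_num) (aSeq_three n hn)))
    exact h5 this.symm
  have hroot : (N ∅).eval z1 = 0 := by
    rw [hev]
    have : z1 * ((z1 - 1) * (z1 - 2) * aSeq z1 n) ^ (p + 1) +
      z1 * (z1 - 1) * ((z1 - 1) * (z1 - 2) * aSeq z1 n - 2 * (z1 - 2) * (3 - z1) ^ n) ^ (p + 1) =
      z1 * (((z1 - 1) * (z1 - 2) * aSeq z1 n) ^ (p + 1)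
      + (z1 - 1) * ((z1 - 1) * (z1 - 2) * aSeq z1 n - 2 * (z1 - 2) * (3 - z1) ^ n) ^ (p + 1)) := by ring
    rw [this, h3, mul_zero]
  -- a good radius
  have hev1 : ∀ᶠ z in 𝓝 z1, ‖z - 3‖ < ‖z ^ 2 - 3 * z + 3‖ :=
    ContinuousAt.eventually_lt (f := fun z : ℂ => ‖z - 3‖)
      (g := fun z : ℂ => ‖z ^ 2 - 3 * z + 3‖) (by fun_prop) (by fun_prop) h1
  have hev2 : ∀ᶠ z in 𝓝 z1, z ≠ 2 := isOpen_ne.eventually_mem h2
  have hev3 : ∀ᶠ z in 𝓝 z1, z ∉ (((N ∅).roots.toFinset.erase z1 : Finset ℂ) : Set ℂ) := by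
    have hop : IsOpen ((((N ∅).roots.toFinset.erase z1 : Finset ℂ) : Set ℂ)ᶜ) :=
      (Finset.finite_toSet _).isClosed.isOpen_compl
    exact hop.eventually_mem (by simp)
  obtain ⟨r0, hr0, hball⟩ := Metric.eventually_nhds_iff_ball.1 (hev1.and (hev2.and hev3))
  set r : ℝ := min (r0 / 2) ε with hr
  have hrpos : 0 < r := lt_min (by linarith) hε
  have hsub : ∀ z ∈ closedBall z1 r, ‖z - 3‖ < ‖z ^ 2 - 3 * z + 3‖ ∧ z ≠ 2 ∧
      z ∉ (((N ∅).roots.toFinset.erase z1 : Finset ℂ) : Set ℂ) := by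
    intro z hz
    apply hball
    rw [mem_ball]
    rw [mem_closedBall] at hz
    have : r ≤ r0 / 2 := min_le_left _ _
    linarith
  have hK : IsCompact (closedBall z1 r) := isCompact_closedBall z1 r
  have hKne : (closedBall z1 r).Nonempty := ⟨z1, mem_closedBall_self hrpos.le⟩
  -- bounds for the polynomials
  have hbd : ∀ T : Finset (Fin p), ∃ M : ℝ, 0 ≤ M ∧ ∀ z ∈ closedBall z1 r, ‖(N T).eval z‖ ≤ M := by
    intro T
    obtain ⟨M, hM⟩ := hK.exists_bound_of_continuousOn (f := fun z => (N T).eval z)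
      (N T).continuous.continuousOn
    exact ⟨max M 0, le_max_right _ _, fun z hz => (hM z hz).trans (le_max_left _ _)⟩
  choose M hM0 hM using hbd
  set f : ℕ → ℂ → ℂ := fun m z => ∑ T : Finset (Fin p), (-ep m z) ^ T.card * (N T).eval z with hf
  have hmain := hurwitz f (fun z => (N ∅).eval z) z1 r hrpos ?_ hroot (N ∅).continuous.continuousOn ?_ ?_
  · obtain ⟨m, ⟨z, hz, hfz⟩, hsm⟩ := (hmain.and (ep_small _ hK hKne (fun z hz => (hsub z hz).1)
      (fun z hz => (hsub z hz).2.1) 1 one_pos)).exists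
    obtain ⟨P, hP1, hP2⟩ := exists_chromPoly p n m N hN
    refine ⟨z, ?_, ?_⟩
    · refine Pool.Agent.Ch3.mem_rootSet (ladGraph p n m) (ladGraph_threeConn p n m hp)
        (ladGraph_planar p n m hn) P hP1 z ?_
      rw [hP2]
      have ha := (hsm z hz).1
      have : ∑ T : Finset (Fin p), (-(3 - z) ^ (m + 1)) ^ T.card *
        (aSeq z (m + 1)) ^ (p - T.card) * (N T).eval z = (aSeq z (m + 1)) ^ p * f m z := by
        rw [hf, Finset.mul_sum]
        apply Finset.sum_congr rfl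
        intro T _
        have hT : T.card ≤ p := by simpa using Finset.card_le_univ T
        have e : (-ep m z) ^ T.card * (aSeq z (m + 1)) ^ T.card = (-(3 - z) ^ (m + 1)) ^ T.card := by
          rw [← mul_pow]
          congr 1
          unfold ep
          field_simp
        have e' : (aSeq z (m + 1)) ^ p = (aSeq z (m + 1)) ^ T.card * (aSeq z (m + 1)) ^ (p - T.card) := by
          rw [← pow_add]
          congr 1
          omega
        rw [e', ← e]
        ring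
      rw [this, hfz, mul_zero]
    · have := hz
      rw [mem_closedBall, dist_eq_norm] at this
      exact this.trans (min_le_right _ _)
  · -- differentiability
    filter_upwards [ep_small _ hK hKne (fun z hz => (hsub z hz).1)
      (fun z hz => (hsub z hz).2.1) 1 one_pos] with m hm
    apply DifferentiableOn.diffContOnCl
    rw [closure_ball _ hrpos.ne']
    intro z hz
    apply DifferentiableAt.differentiableWithinAt
    obtain ⟨B, hB⟩ := aSeq_poly (m + 1)
    have hfe : f m = fun z => ∑ T : Finset (Fin p), (-((3 - z) ^ (m + 1) / B.eval z)) ^ T.card * (N T).eval z := by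
      funext z
      simp only [hf, ep, hB]
    rw [hfe]
    have hBz : B.eval z ≠ 0 := by rw [hB]; exact (hm z hz).1
    have hBd : DifferentiableAt ℂ (fun z => B.eval z) z := B.differentiable.differentiableAt
    apply DifferentiableAt.fun_sum
    intro T _
    apply DifferentiableAt.fun_mul
    · apply DifferentiableAt.fun_pow
      apply DifferentiableAt.fun_neg
      apply DifferentiableAt.fun_div _ hBd hBz
      fun_prop
    · exact (N T).differentiable.differentiableAt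
  · -- nonvanishing on the sphere
    intro z hz h0
    have h4 := (hsub z (sphere_subset_closedBall hz)).2.2
    apply h4
    have hzne : z ≠ z1 := by
      rintro rfl
      rw [mem_sphere, dist_self] at hz
      exact hrpos.ne hz
    simp only [Finset.coe_erase, Set.mem_sdiff, Finset.mem_coe, Multiset.mem_toFinset, Set.mem_singleton_iff]
    exact ⟨(Polynomial.mem_roots hne).2 h0, hzne⟩
  · -- uniform convergence
    rw [Metric.tendstoUniformlyOn_iff]
    intro δ hδ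
    set Mt : ℝ := ∑ T : Finset (Fin p), M T with hMt
    have hMt0 : 0 ≤ Mt := Finset.sum_nonneg (fun T _ => hM0 T)
    filter_upwards [ep_small _ hK hKne (fun z hz => (hsub z hz).1)
      (fun z hz => (hsub z hz).2.1) (min 1 (δ / (Mt + 1) / 2)) (by positivity)] with m hm z hz
    have he := (hm z hz).2
    have he1 : ‖ep m z‖ ≤ 1 := he.trans (min_le_left _ _)
    have he2 : ‖ep m z‖ ≤ δ / (Mt + 1) / 2 := he.trans (min_le_right _ _)
    rw [dist_comm, dist_eq_norm]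
    have hsplit : f m z - (N ∅).eval z = ∑ T ∈ Finset.univ.erase (∅ : Finset (Fin p)),
        (-ep m z) ^ T.card * (N T).eval z := by
      rw [hf]
      simp only
      rw [← Finset.add_sum_erase _ _ (Finset.mem_univ (∅ : Finset (Fin p)))]
      simp
    rw [hsplit]
    have hb : ‖∑ T ∈ Finset.univ.erase (∅ : Finset (Fin p)), (-ep m z) ^ T.card * (N T).eval z‖ ≤
        ∑ T : Finset (Fin p), (δ / (Mt + 1) / 2) * M T := by
      calc _ ≤ ∑ T ∈ Finset.univ.erase (∅ : Finset (Fin p)), ‖(-ep m z) ^ T.card * (N T).eval z‖ :=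
            norm_sum_le _ _
        _ ≤ ∑ T ∈ Finset.univ.erase (∅ : Finset (Fin p)), (δ / (Mt + 1) / 2) * M T := by
            apply Finset.sum_le_sum
            intro T hT
            have hTne : T ≠ ∅ := Finset.ne_of_mem_erase hT
            have hTc : T.card ≠ 0 := by simpa using hTne
            rw [norm_mul, norm_pow, norm_neg]
            apply mul_le_mul _ (hM T z hz) (norm_nonneg _) (by positivity)
            calc ‖ep m z‖ ^ T.card ≤ ‖ep m z‖ ^ 1 := by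
                  apply pow_le_pow_of_le_one (norm_nonneg _) he1
                  omega
              _ ≤ _ := by rw [pow_one]; exact he2
        _ ≤ _ := by
            apply Finset.sum_le_sum_of_subset_of_nonneg (Finset.erase_subset _ _)
            intro T _ _
            have := hM0 T
            positivity
    rw [← Finset.mul_sum, ← hMt] at hb
    refine lt_of_le_of_lt hb ?_
    have : δ / (Mt + 1) / 2 * Mt ≤ δ / 2 := by
      rw [div_div, div_mul_eq_mul_div, div_le_div_iff₀ (by positivity) (by positivity)]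
      nlinarith
    linarith

/-- the roots are dense in `{z : |z-3| < |z^2-3z+3|}` -/
theorem dense_D (z0 : ℂ) (h0 : ‖z0 - 3‖ < ‖z0 ^ 2 - 3 * z0 + 3‖) :
    z0 ∈ closure Pool.Agent.Ch3.rootSet := by
  rw [Metric.mem_closure_iff]
  intro ε hε
  obtain ⟨n, p, z1, hn, hp, hz, hD, hz0, hz2, hzero⟩ := exists_zero_H z0 h0 (ε / 2) (by linarith)
  obtain ⟨z, hzr, hd⟩ := near_zero p n hn hp z1 hD hz2 hzero (ε / 4) (by linarith)
  refine ⟨z, hzr, ?_⟩
  rw [dist_comm, dist_eq_norm]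
  calc ‖z - z0‖ = ‖(z - z1) + (z1 - z0)‖ := by ring_nf
    _ ≤ ‖z - z1‖ + ‖z1 - z0‖ := norm_add_le _ _
    _ < ε := by linarith

end Pool.Agent.LibChromRoots
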