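import Pool.Agent.LibChromRoots.Strip

/-!
The number of colourings of `ladGraph p n m` and its chromatic polynomial.
-/

set_option autoImplicit false
open Classical

namespace Pool.Agent.LibChromRoots

/-- colourings of the vertex set are triples -/
def colEquiv (p n m : ℕ) (C : Type) : (Vtx p n m → C) ≃
    (Bool → C) × (Fin (p + 1) → Fin (n + 1) → Bool → C) × (Fin p → Fin (m + 1) → Bool → C) where
  toFun c := (fun b => c (.pole b), fun i k s => c (.up i k s), fun i k s => c (.lk i k s))
  invFun t v := match v with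
    | .pole b => t.1 b
    | .up i k s => t.2.1 i k s
    | .lk i k s => t.2.2 i k s
  left_inv c := by funext v; cases v <;> rfl
  right_inv t := rfl

/-- the colours next to the first rung of the link `i` -/
def lkX {q p n : ℕ} (P : Bool → Fin q) (U : Fin (p + 1) → Fin (n + 1) → Bool → Fin q) (i : Fin p) :
    Bool → Fin q := fun s => bif s then P false else U i.castSucc 0 true

theorem isCol_iff {q p n m : ℕ} (P : Bool → Fin q) (U : Fin (p + 1) → Fin (n + 1) → Bool → Fin q)
    (L : Fin p → Fin (m + 1) → Bool → Fin q) :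
    IsCol (ladGraph p n m) q ((colEquiv p n m (Fin q)).symm (P, U, L)) ↔
      (∀ i, LadOK (fun _ => P false) (P true) (U i)) ∧
      (∀ i : Fin p, LadOK (lkX P U i) (U i.succ 0 false) (L i)) := by
  have key : IsCol (ladGraph p n m) q ((colEquiv p n m (Fin q)).symm (P, U, L)) ↔
      ∀ u v, Edge p n m u v → (colEquiv p n m (Fin q)).symm (P, U, L) u ≠
        (colEquiv p n m (Fin q)).symm (P, U, L) v := by
    constructor
    · intro h u v huv
      exact h u v (Or.inl huv)
    · intro h u v huv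
      rcases huv with huv | huv
      · exact h u v huv
      · exact (h v u huv).symm
  rw [key]
  constructor
  · intro h
    refine ⟨fun i => ⟨?_, ?_, ?_, ?_⟩, fun i => ⟨?_, ?_, ?_, ?_⟩⟩
    · intro s; exact (h _ _ (Edge.bot i s)).symm
    · intro k; exact h _ _ (Edge.rung i k)
    · intro k s; exact h _ _ (Edge.rail i k s)
    · intro s; exact (h _ _ (Edge.top i s)).symm
    · intro s
      cases s
      · exact (h _ _ (Edge.lstart i)).symm
      · exact (h _ _ (Edge.lpole i)).symm
    · intro k; exact h _ _ (Edge.lrung i k)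
    · intro k s; exact h _ _ (Edge.lrail i k s)
    · intro s; exact h _ _ (Edge.lend i s)
  · rintro ⟨h1, h2⟩ u v huv
    cases huv with
    | bot i s => exact ((h1 i).1 s).symm
    | top i s => exact ((h1 i).2.2.2 s).symm
    | rung i k => exact (h1 i).2.1 k
    | rail i k s => exact (h1 i).2.2.1 k s
    | lstart i => exact ((h2 i).1 false).symm
    | lpole i => exact ((h2 i).1 true).symm
    | lrung i k => exact (h2 i).2.1 k
    | lrail i k s => exact (h2 i).2.2.1 k s
    | lend i s => exact (h2 i).2.2.2 s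

/-- the indicator of a base colouring -/
noncomputable def baseInd {q p n : ℕ} (P : Bool → Fin q) (U : Fin (p + 1) → Fin (n + 1) → Bool → Fin q) : ℂ :=
  ∏ i : Fin (p + 1), (if LadOK (fun _ => P false) (P true) (U i) then (1 : ℂ) else 0)

theorem baseInd_eq {q p n : ℕ} (P : Bool → Fin q) (U : Fin (p + 1) → Fin (n + 1) → Bool → Fin q) :
    baseInd P U = if (∀ i, LadOK (fun _ => P false) (P true) (U i)) then 1 else 0 := by
  unfold baseInd
  by_cases h : ∀ i, LadOK (fun _ => P false) (P true) (U i)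
  · rw [if_pos h]
    exact Finset.prod_eq_one (fun i _ => if_pos (h i))
  · rw [if_neg h]
    push Not at h
    obtain ⟨i, hi⟩ := h
    exact Finset.prod_eq_zero (Finset.mem_univ i) (if_neg hi)

/-- the numbers `N_T` -/
noncomputable def cnt (p n q : ℕ) (T : Finset (Fin p)) : ℂ :=
  ∑ P : Bool → Fin q, ∑ U : Fin (p + 1) → Fin (n + 1) → Bool → Fin q,
    baseInd P U * ∏ i ∈ T, dl (U i.castSucc 0 true) (U i.succ 0 false)

theorem card_col (p n m q : ℕ) :
    (Nat.card {c : Vtx p n m → Fin q // IsCol (ladGraph p n m) q c} : ℂ) =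
    ∑ T : Finset (Fin p), (-(3 - (q : ℂ)) ^ (m + 1)) ^ T.card * (aSeq (q : ℂ) (m + 1)) ^ (p - T.card) *
      cnt p n q T := by
  rw [natCard_subtype, ← (colEquiv p n m (Fin q)).symm.sum_comp, Fintype.sum_prod_type]
  simp_rw [Fintype.sum_prod_type, isCol_iff]
  have h1 : ∀ (P : Bool → Fin q) (U : Fin (p + 1) → Fin (n + 1) → Bool → Fin q),
      (∑ L : Fin p → Fin (m + 1) → Bool → Fin q,
        (if (∀ i, LadOK (fun _ => P false) (P true) (U i)) ∧
          (∀ i : Fin p, LadOK (lkX P U i) (U i.succ 0 false) (L i)) then (1 : ℂ) else 0)) =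
      baseInd P U * ∏ i : Fin p, (aSeq (q : ℂ) (m + 1) -
        (3 - q) ^ (m + 1) * dl (U i.castSucc 0 true) (U i.succ 0 false)) := by
    intro P U
    rw [baseInd_eq]
    by_cases hb : ∀ i, LadOK (fun _ => P false) (P true) (U i)
    · rw [if_pos hb, one_mul]
      have h2 : ∀ L : Fin p → Fin (m + 1) → Bool → Fin q,
          (if (∀ i, LadOK (fun _ => P false) (P true) (U i)) ∧
            (∀ i : Fin p, LadOK (lkX P U i) (U i.succ 0 false) (L i)) then (1 : ℂ) else 0) =
          ∏ i : Fin p, (if LadOK (lkX P U i) (U i.succ 0 false) (L i) then (1 : ℂ) else 0) := by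
        intro L
        by_cases hl : ∀ i : Fin p, LadOK (lkX P U i) (U i.succ 0 false) (L i)
        · rw [if_pos ⟨hb, hl⟩]
          exact (Finset.prod_eq_one (fun i _ => if_pos (hl i))).symm
        · rw [if_neg (fun h => hl h.2)]
          push Not at hl
          obtain ⟨i, hi⟩ := hl
          exact (Finset.prod_eq_zero (Finset.mem_univ i) (if_neg hi)).symm
      simp_rw [h2]
      have h3 := Finset.prod_univ_sum (fun _ : Fin p => (Finset.univ : Finset (Fin (m + 1) → Bool → Fin q)))
        (fun i g => if LadOK (lkX P U i) (U i.succ 0 false) g then (1 : ℂ) else 0)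
      rw [Fintype.piFinset_univ] at h3
      rw [← h3]
      apply Finset.prod_congr rfl
      intro i _
      rw [sum_ladOK, stripW_formula]
      · have e1 : lkX P U i false = U i.castSucc 0 true := rfl
        have e2 : lkX P U i true = P false := rfl
        rw [e1, e2]
        have : dl (P false) (U i.succ 0 false) = 0 := by
          have := (hb i.succ).1 false
          simp [dl, Ne.symm this]
        rw [this, add_zero]
      · exact (hb i.castSucc).1 true
    · rw [if_neg hb, zero_mul]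
      apply Finset.sum_eq_zero
      intro L _
      exact if_neg (fun h => hb h.1)
  simp_rw [h1]
  have h4 : ∀ (U : Fin (p + 1) → Fin (n + 1) → Bool → Fin q),
      ∏ i : Fin p, (aSeq (q : ℂ) (m + 1) -
        (3 - q) ^ (m + 1) * dl (U i.castSucc 0 true) (U i.succ 0 false)) =
      ∑ T : Finset (Fin p), (-(3 - (q : ℂ)) ^ (m + 1)) ^ T.card * (aSeq (q : ℂ) (m + 1)) ^ (p - T.card) *
        ∏ i ∈ T, dl (U i.castSucc 0 true) (U i.succ 0 false) := by
    intro U
    have h5 : ∀ i : Fin p, (aSeq (q : ℂ) (m + 1) -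
        (3 - q) ^ (m + 1) * dl (U i.castSucc 0 true) (U i.succ 0 false)) =
        (-(3 - (q : ℂ)) ^ (m + 1)) * dl (U i.castSucc 0 true) (U i.succ 0 false) + aSeq (q : ℂ) (m + 1) := by
      intro i; ring
    simp_rw [h5]
    rw [Finset.prod_add, Finset.powerset_univ]
    apply Finset.sum_congr rfl
    intro T _
    rw [Finset.prod_mul_distrib, Finset.prod_const, Finset.prod_const, Finset.card_univ_sdiff,
      Fintype.card_fin]
    ring
  simp_rw [h4, cnt, Finset.mul_sum]
  have h6 : ∀ P : Bool → Fin q,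
      ∑ U : Fin (p + 1) → Fin (n + 1) → Bool → Fin q, ∑ T : Finset (Fin p), baseInd P U *
        ((-(3 - (q : ℂ)) ^ (m + 1)) ^ T.card * (aSeq (q : ℂ) (m + 1)) ^ (p - T.card) *
        ∏ i ∈ T, dl (U i.castSucc 0 true) (U i.succ 0 false)) =
      ∑ T : Finset (Fin p), ∑ U : Fin (p + 1) → Fin (n + 1) → Bool → Fin q, baseInd P U *
        ((-(3 - (q : ℂ)) ^ (m + 1)) ^ T.card * (aSeq (q : ℂ) (m + 1)) ^ (p - T.card) *
        ∏ i ∈ T, dl (U i.castSucc 0 true) (U i.succ 0 false)) := fun P => Finset.sum_comm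
  simp_rw [h6]
  rw [Finset.sum_comm]
  apply Finset.sum_congr rfl
  intro T _
  apply Finset.sum_congr rfl
  intro P _
  apply Finset.sum_congr rfl
  intro U _
  ring

/-- the base count: `T = ∅` -/
theorem cnt_empty (p n q : ℕ) : cnt p n q ∅ =
    (q : ℂ) * (((q : ℂ) - 1) * (q - 2) * aSeq q n) ^ (p + 1) +
    (q : ℂ) * (q - 1) * (((q : ℂ) - 1) * (q - 2) * aSeq q n - 2 * (q - 2) * (3 - q) ^ n) ^ (p + 1) := by
  unfold cnt
  simp only [Finset.prod_empty, mul_one]
  have h1 : ∀ P : Bool → Fin q, ∑ U : Fin (p + 1) → Fin (n + 1) → Bool → Fin q, baseInd P U =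
      (((q : ℂ) - 1) * (q - 2) * aSeq q n - 2 * (q - 2) * (3 - q) ^ n * (1 - dl (P false) (P true))) ^ (p + 1) := by
    intro P
    unfold baseInd
    have h3 := Finset.prod_univ_sum (fun _ : Fin (p + 1) => (Finset.univ : Finset (Fin (n + 1) → Bool → Fin q)))
      (fun i g => if LadOK (fun _ => P false) (P true) g then (1 : ℂ) else 0)
    rw [Fintype.piFinset_univ] at h3
    rw [← h3]
    simp_rw [sum_ladOK, stripW_const]
    rw [Finset.prod_const, Finset.card_univ, Fintype.card_fin]
  simp_rw [h1]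
  rw [sum_bool]
  simp only [cond_false, cond_true]
  have h2 : ∀ x y : Fin q, (((q : ℂ) - 1) * (q - 2) * aSeq q n -
      2 * (q - 2) * (3 - q) ^ n * (1 - dl x y)) ^ (p + 1) =
      (((q : ℂ) - 1) * (q - 2) * aSeq q n - 2 * (q - 2) * (3 - q) ^ n) ^ (p + 1) +
      dl x y * ((((q : ℂ) - 1) * (q - 2) * aSeq q n) ^ (p + 1) -
       (((q : ℂ) - 1) * (q - 2) * aSeq q n - 2 * (q - 2) * (3 - q) ^ n) ^ (p + 1)) := by
    intro x y
    by_cases h : x = y
    · subst h
      rw [dl_self]
      ring
    · have : dl x y = 0 := by simp [dl, h]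
      rw [this]
      ring
  simp_rw [h2, Finset.sum_add_distrib]
  have h4 : ∀ x : Fin q, ∑ y : Fin q, dl x y * ((((q : ℂ) - 1) * (q - 2) * aSeq q n) ^ (p + 1) -
       (((q : ℂ) - 1) * (q - 2) * aSeq q n - 2 * (q - 2) * (3 - q) ^ n) ^ (p + 1)) =
      ((((q : ℂ) - 1) * (q - 2) * aSeq q n) ^ (p + 1) -
       (((q : ℂ) - 1) * (q - 2) * aSeq q n - 2 * (q - 2) * (3 - q) ^ n) ^ (p + 1)) := by
    intro x
    exact sum_dl_left (fun _ => ((((q : ℂ) - 1) * (q - 2) * aSeq q n) ^ (p + 1) -
       (((q : ℂ) - 1) * (q - 2) * aSeq q n - 2 * (q - 2) * (3 - q) ^ n) ^ (p + 1))) x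
  simp_rw [h4]
  simp only [Finset.sum_const, Finset.card_univ, Fintype.card_fin, nsmul_eq_mul]
  ring

/-- the base vertices -/
abbrev VB (p n : ℕ) : Type := Bool ⊕ (Fin (p + 1) × Fin (n + 1) × Bool)

/-- base edges -/
inductive BEdge (p n : ℕ) : VB p n → VB p n → Prop
  | bot (i : Fin (p + 1)) (s : Bool) : BEdge p n (.inl false) (.inr (i, 0, s))
  | top (i : Fin (p + 1)) (s : Bool) : BEdge p n (.inl true) (.inr (i, Fin.last n, s))
  | rung (i : Fin (p + 1)) (k : Fin (n + 1)) : BEdge p n (.inr (i, k, false)) (.inr (i, k, true))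
  | rail (i : Fin (p + 1)) (k : Fin n) (s : Bool) : BEdge p n (.inr (i, k.castSucc, s)) (.inr (i, k.succ, s))

/-- colourings of the base vertices -/
def baseEquiv (p n : ℕ) (C : Type) : (VB p n → C) ≃
    (Bool → C) × (Fin (p + 1) → Fin (n + 1) → Bool → C) where
  toFun c := (fun b => c (.inl b), fun i k s => c (.inr (i, k, s)))
  invFun t v := match v with
    | .inl b => t.1 b
    | .inr (i, k, s) => t.2 i k s
  left_inv c := by funext v; rcases v with b | ⟨i, k, s⟩ <;> rfl
  right_inv t := rfl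

theorem cnt_poly (p n : ℕ) (T : Finset (Fin p)) :
    ∃ P : Polynomial ℂ, ∀ q : ℕ, P.eval (q : ℂ) = cnt p n q T := by
  obtain ⟨Q, hQ⟩ := constraint_poly (V := VB p n) (Finset.univ.filter (fun e => BEdge p n e.1 e.2))
    (T.image (fun i => (Sum.inr (i.castSucc, 0, true), Sum.inr (i.succ, 0, false))))
  refine ⟨Q, fun q => ?_⟩
  rw [hQ, natCard_subtype, ← (baseEquiv p n (Fin q)).symm.sum_comp, Fintype.sum_prod_type, cnt]
  apply Finset.sum_congr rfl
  intro P _
  apply Finset.sum_congr rfl
  intro U _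
  rw [baseInd_eq]
  have e2 : (∏ i ∈ T, dl (U i.castSucc 0 true) (U i.succ 0 false)) =
      if (∀ i ∈ T, U i.castSucc 0 true = U i.succ 0 false) then (1 : ℂ) else 0 := by
    unfold dl
    by_cases h : ∀ i ∈ T, U i.castSucc 0 true = U i.succ 0 false
    · rw [if_pos h]
      exact Finset.prod_eq_one (fun i hi => if_pos (h i hi))
    · rw [if_neg h]
      push Not at h
      obtain ⟨i, hi, hne⟩ := h
      exact Finset.prod_eq_zero hi (if_neg hne)
  rw [e2, ite_zero_mul_ite_zero, mul_one]
  congr 1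
  apply propext
  apply and_congr
  · simp only [Finset.mem_filter, Finset.mem_univ, true_and, Prod.forall]
    constructor
    · intro h i
      refine ⟨?_, ?_, ?_, ?_⟩
      · intro s; exact (h _ _ (BEdge.bot i s)).symm
      · intro k; exact h _ _ (BEdge.rung i k)
      · intro k s; exact h _ _ (BEdge.rail i k s)
      · intro s; exact (h _ _ (BEdge.top i s)).symm
    · intro h u v huv
      cases huv with
      | bot i s => exact ((h i).1 s).symm
      | top i s => exact ((h i).2.2.2 s).symm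
      | rung i k => exact (h i).2.1 k
      | rail i k s => exact (h i).2.2.1 k s
  · simp only [Finset.mem_image]
    constructor
    · intro h i hi
      exact h _ ⟨i, hi, rfl⟩
    · rintro h e ⟨i, hi, rfl⟩
      exact h i hi

theorem aSeq_poly (k : ℕ) : ∃ A : Polynomial ℂ, ∀ z : ℂ, A.eval z = aSeq z k := by
  induction k with
  | zero => exact ⟨1, fun z => by simp [aSeq]⟩
  | succ k ih =>
    obtain ⟨A, hA⟩ := ih
    refine ⟨(Polynomial.X ^ 2 - 3 * Polynomial.X + 3) * A - 2 * (Polynomial.X - 2) * (3 - Polynomial.X) ^ k, ?_⟩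
    intro z
    rw [aSeq, ← hA]
    simp

end Pool.Agent.LibChromRoots
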