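import Pool.Agent.LibChromRoots.Whitney
import Pool.Agent.LibChromRoots.Zeros

/-!
Number of colourings of a ladder with prescribed colours next to the first rung and after the last rung.
-/

set_option autoImplicit false
open Classical

namespace Pool.Agent.LibChromRoots

variable {q : ℕ}

/-- transfer recursion -/
noncomputable def stripW : ℕ → (Bool → Fin q) → Fin q → ℂ
  | 0, X, Z => if ∀ s, X s ≠ Z then 1 else 0
  | (m + 1), X, Z => ∑ f : Bool → Fin q,
      (if (∀ s, f s ≠ X s) ∧ f false ≠ f true then 1 else 0) * stripW m f Z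

/-- proper colourings of a ladder with `m+1` rungs: the first rung differs from `X`, the last from `Z` -/
def LadOK {m : ℕ} (X : Bool → Fin q) (Z : Fin q) (g : Fin (m + 1) → Bool → Fin q) : Prop :=
  (∀ s, g 0 s ≠ X s) ∧ (∀ k, g k false ≠ g k true) ∧
  (∀ (k : Fin m) (s : Bool), g k.castSucc s ≠ g k.succ s) ∧ (∀ s, g (Fin.last m) s ≠ Z)

theorem ladOK_cons {m : ℕ} (X : Bool → Fin q) (Z : Fin q) (f : Bool → Fin q)
    (g : Fin (m + 1) → Bool → Fin q) :
    LadOK (m := m + 1) X Z (Fin.cons (α := fun _ => Bool → Fin q) f g) ↔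
      ((∀ s, f s ≠ X s) ∧ f false ≠ f true) ∧ LadOK f Z g := by
  unfold LadOK
  constructor
  · rintro ⟨h1, h2, h3, h4⟩
    refine ⟨⟨?_, ?_⟩, ?_, ?_, ?_, ?_⟩
    · intro s; simpa using h1 s
    · simpa using h2 0
    · intro s
      have := h3 0 s
      simp only [Fin.castSucc_zero, Fin.cons_zero, Fin.cons_succ] at this
      exact this.symm
    · intro k
      have := h2 k.succ
      simpa using this
    · intro k s
      have := h3 k.succ s
      rw [← Fin.succ_castSucc, Fin.cons_succ, Fin.cons_succ] at this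
      exact this
    · intro s
      have := h4 s
      rw [← Fin.succ_last, Fin.cons_succ] at this
      exact this
  · rintro ⟨⟨h1, h2⟩, h3, h4, h5, h6⟩
    refine ⟨?_, ?_, ?_, ?_⟩
    · intro s; simpa using h1 s
    · intro k
      refine Fin.cases ?_ ?_ k
      · simpa using h2
      · intro k; simpa using h4 k
    · intro k s
      refine Fin.cases ?_ ?_ k
      · simp only [Fin.castSucc_zero, Fin.cons_zero, Fin.cons_succ]
        exact (h3 s).symm
      · intro k
        rw [← Fin.succ_castSucc, Fin.cons_succ, Fin.cons_succ]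
        exact h5 k s
    · intro s
      rw [← Fin.succ_last, Fin.cons_succ]
      exact h6 s

theorem sum_ladOK (m : ℕ) : ∀ (X : Bool → Fin q) (Z : Fin q),
    (∑ g : Fin (m + 1) → Bool → Fin q, (if LadOK X Z g then (1 : ℂ) else 0)) = stripW (m + 1) X Z := by
  induction m with
  | zero =>
    intro X Z
    rw [← (Equiv.funUnique (Fin 1) (Bool → Fin q)).symm.sum_comp, stripW]
    apply Finset.sum_congr rfl
    intro f _
    rw [stripW, ite_zero_mul_ite_zero, mul_one]
    congr 1
    apply propext
    unfold LadOK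
    simp only [Equiv.funUnique_symm_apply, uniqueElim_const]
    constructor
    · rintro ⟨h1, h2, -, h4⟩
      exact ⟨⟨h1, h2 0⟩, h4⟩
    · rintro ⟨⟨h1, h2⟩, h4⟩
      exact ⟨h1, fun _ => h2, fun k => k.elim0, h4⟩
  | succ m ih =>
    intro X Z
    rw [← (Fin.consEquiv (fun _ : Fin (m + 2) => Bool → Fin q)).sum_comp, Fintype.sum_prod_type, stripW]
    apply Finset.sum_congr rfl
    intro f _
    rw [← ih f Z, Finset.mul_sum]
    apply Finset.sum_congr rfl
    intro g _
    rw [ite_zero_mul_ite_zero, mul_one]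
    congr 1
    apply propext
    exact ladOK_cons X Z f g

/-- indicator of equality -/
noncomputable def dl (x y : Fin q) : ℂ := if x = y then 1 else 0

theorem dl_self (x : Fin q) : dl x x = 1 := by simp [dl]

theorem sum_dl_right (g : Fin q → ℂ) (y : Fin q) : ∑ x : Fin q, dl x y * g x = g y := by
  simp [dl]

theorem sum_dl_left (g : Fin q → ℂ) (y : Fin q) : ∑ x : Fin q, dl y x * g x = g y := by
  simp [dl]

theorem dl_mul_dl (x y z : Fin q) : dl x y * dl x z = dl y z * dl x y := by
  unfold dl
  by_cases h : x = y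
  · subst h; simp
  · simp [h]

theorem ind_pair (x y X Y : Fin q) :
    (if (x ≠ X ∧ y ≠ Y) ∧ x ≠ y then (1 : ℂ) else 0) = (1 - dl x X) * (1 - dl y Y) * (1 - dl x y) := by
  unfold dl
  by_cases h1 : x = X <;> by_cases h2 : y = Y <;> by_cases h3 : x = y <;> simp [h1, h2, h3]

/-- functions on `Bool` are pairs -/
def boolEquiv (α : Type) : (α × α) ≃ (Bool → α) where
  toFun p s := bif s then p.2 else p.1
  invFun f := (f false, f true)
  left_inv _ := rfl
  right_inv f := by funext s; cases s <;> rfl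

/-- sum over functions on `Bool` is a double sum -/
theorem sum_bool (F : (Bool → Fin q) → ℂ) :
    ∑ f : Bool → Fin q, F f = ∑ x : Fin q, ∑ y : Fin q, F (fun s => bif s then y else x) := by
  rw [← (boolEquiv (Fin q)).sum_comp, Fintype.sum_prod_type]
  rfl

theorem inner_sum (G : Fin q → ℂ) (x Y : Fin q) :
    ∑ y : Fin q, (1 - dl y Y) * (1 - dl x y) * G y = (∑ y : Fin q, G y) - G Y - G x + dl x Y * G Y := by
  have h : ∀ y : Fin q, (1 - dl y Y) * (1 - dl x y) * G y =
      G y - dl y Y * G y - dl x y * G y + dl y Y * (dl x y * G y) := by intro y; ring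
  simp_rw [h, Finset.sum_add_distrib, Finset.sum_sub_distrib]
  rw [sum_dl_right, sum_dl_left, sum_dl_right (fun y => dl x y * G y)]

/-- the double sum appearing in the transfer -/
theorem double_sum (a b : ℂ) (X Y Z : Fin q) :
    ∑ x : Fin q, ∑ y : Fin q, (1 - dl x X) * (1 - dl y Y) * (1 - dl x y) *
      (a - b * (dl x Z + dl y Z)) =
    ((q : ℂ) * (a * (q - 2) - b + b * dl Y Z) - b * (q - 3) + a - 2 * b * dl Y Z) -
    (a * (q - 2) - b + b * dl Y Z - b * (q - 3) * dl X Z + dl X Y * (a - 2 * b * dl Y Z)) := by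
  have h1 : ∀ x : Fin q, ∑ y : Fin q, (1 - dl x X) * (1 - dl y Y) * (1 - dl x y) *
      (a - b * (dl x Z + dl y Z)) = (1 - dl x X) * (a * (q - 2) - b + b * dl Y Z -
        b * (q - 3) * dl x Z + dl x Y * (a - 2 * b * dl Y Z)) := by
    intro x
    have h2 : ∀ y : Fin q, (1 - dl x X) * (1 - dl y Y) * (1 - dl x y) *
      (a - b * (dl x Z + dl y Z)) = (1 - dl x X) * ((1 - dl y Y) * (1 - dl x y) *
      (a - b * (dl x Z + dl y Z))) := by intro y; ring
    simp_rw [h2]
    rw [← Finset.mul_sum, inner_sum (fun y => a - b * (dl x Z + dl y Z))]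
    have h3 : ∑ y : Fin q, (a - b * (dl x Z + dl y Z)) = q * (a - b * dl x Z) - b := by
      have h4 : ∀ y : Fin q, (a - b * (dl x Z + dl y Z)) = (a - b * dl x Z) - dl y Z * b := by
        intro y; ring
      simp_rw [h4, Finset.sum_sub_distrib]
      rw [sum_dl_right (fun _ => b)]
      simp
      ring
    rw [h3]
    have h5 := dl_mul_dl x Y Z
    have h6 : dl x Y * (a - b * (dl x Z + dl Y Z)) = dl x Y * (a - 2 * b * dl Y Z) := by
      have : dl x Y * (a - b * (dl x Z + dl Y Z)) =
        dl x Y * a - b * (dl x Y * dl x Z) - b * dl x Y * dl Y Z := by ring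
      rw [this, h5]
      ring
    rw [h6]
    ring
  simp_rw [h1]
  have h2 : ∀ x : Fin q, (1 - dl x X) * (a * (q - 2) - b + b * dl Y Z -
        b * (q - 3) * dl x Z + dl x Y * (a - 2 * b * dl Y Z)) =
      ((a * (q - 2) - b + b * dl Y Z) - dl x Z * (b * (q - 3)) + dl x Y * (a - 2 * b * dl Y Z)) -
      dl x X * (a * (q - 2) - b + b * dl Y Z -
        b * (q - 3) * dl x Z + dl x Y * (a - 2 * b * dl Y Z)) := by intro x; ring
  simp_rw [h2, Finset.sum_sub_distrib, Finset.sum_add_distrib, Finset.sum_sub_distrib]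
  rw [sum_dl_right (fun _ => b * ((q : ℂ) - 3)), sum_dl_right (fun _ => a - 2 * b * dl Y Z),
    sum_dl_right (fun x => a * ((q : ℂ) - 2) - b + b * dl Y Z -
        b * (q - 3) * dl x Z + dl x Y * (a - 2 * b * dl Y Z))]
  simp
  ring

theorem stripW_succ_of (m : ℕ) (X : Bool → Fin q) (Z : Fin q) (a b : ℂ)
    (h : ∀ f : Bool → Fin q, f false ≠ f true → stripW m f Z = a - b * (dl (f false) Z + dl (f true) Z)) :
    stripW (m + 1) X Z = ∑ x : Fin q, ∑ y : Fin q,
      (1 - dl x (X false)) * (1 - dl y (X true)) * (1 - dl x y) * (a - b * (dl x Z + dl y Z)) := by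
  rw [stripW, sum_bool]
  apply Finset.sum_congr rfl
  intro x _
  apply Finset.sum_congr rfl
  intro y _
  have e1 : ((∀ s, (fun s : Bool => bif s then y else x) s ≠ X s) ∧
      (fun s : Bool => bif s then y else x) false ≠ (fun s : Bool => bif s then y else x) true) ↔
      ((x ≠ X false ∧ y ≠ X true) ∧ x ≠ y) := by
    simp [Bool.forall_bool]
  rw [← ind_pair]
  by_cases hxy : x = y
  · rw [if_neg, if_neg]
    · simp
    · simp [hxy]
    · rw [e1]; simp [hxy]
  · rw [h _ (by simpa using hxy)]
    congr 1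
    congr 1
    exact propext e1

theorem stripW_formula (m : ℕ) : ∀ (X : Bool → Fin q) (Z : Fin q), X false ≠ X true →
    stripW m X Z = aSeq (q : ℂ) m - (3 - q) ^ m * (dl (X false) Z + dl (X true) Z) := by
  induction m with
  | zero =>
    intro X Z hX
    rw [stripW, aSeq, pow_zero]
    unfold dl
    simp only [Bool.forall_bool]
    by_cases h1 : X false = Z
    · have h2 : X true ≠ Z := fun h => hX (h1.trans h.symm)
      simp [h1, h2]
    · by_cases h2 : X true = Z
      · simp [h1, h2]
      · simp [h1, h2]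
  | succ m ih =>
    intro X Z hX
    rw [stripW_succ_of m X Z _ _ (fun f hf => ih f Z hf), double_sum]
    have : dl (X false) (X true) = 0 := by simp [dl, hX]
    rw [this, aSeq]
    ring

theorem stripW_const (n : ℕ) (S Z : Fin q) :
    stripW (n + 1) (fun _ => S) Z = ((q : ℂ) - 1) * (q - 2) * aSeq q n -
      2 * (q - 2) * (3 - q) ^ n * (1 - dl S Z) := by
  rw [stripW_succ_of n (fun _ => S) Z _ _ (fun f hf => stripW_formula n f Z hf), double_sum, dl_self]
  ring

end Pool.Agent.LibChromRoots
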