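import Pool.Agent.LibChromRoots.Defs

/-!
Whitney's formula: at a natural number `q`, `chromSum G q` is the number of proper colourings with `q`
colours. Polynomiality statements and the identity principle.
-/

set_option autoImplicit false
open Classical

namespace Pool.Agent.LibChromRoots

/-- maps respecting a relation are maps on the quotient -/
noncomputable def respectEquiv {V : Type} (r : V → V → Prop) (q : ℕ) :
    (Quot r → Fin q) ≃ {c : V → Fin q // ∀ a b, r a b → c a = c b} where
  toFun g := ⟨fun v => g (Quot.mk r v), fun a b h => congrArg g (Quot.sound h)⟩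
  invFun c := Quot.lift c.1 c.2
  left_inv g := by
    funext x
    induction x using Quot.ind
    rfl
  right_inv c := by
    rfl

theorem card_respect {V : Type} [Fintype V] (r : V → V → Prop) (q : ℕ) :
    Nat.card {c : V → Fin q // ∀ a b, r a b → c a = c b} = q ^ Nat.card (Quot r) := by
  have : Finite (Quot r) := inferInstance
  let _ : Fintype (Quot r) := Fintype.ofFinite _
  rw [← Nat.card_congr (respectEquiv r q), Nat.card_eq_fintype_card, Nat.card_eq_fintype_card]
  simp

/-- proper colourings -/
def IsCol {V : Type} (G : SimpleGraph V) (q : ℕ) (c : V → Fin q) : Prop :=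
  ∀ u v, G.Adj u v → c u ≠ c v

theorem card_adj {V : Type} [Fintype V] (H : SimpleGraph V) (q : ℕ) :
    Nat.card {c : V → Fin q // ∀ a b, H.Adj a b → c a = c b} = q ^ Nat.card H.ConnectedComponent := by
  have h : ∀ c : V → Fin q, (∀ a b, H.Adj a b → c a = c b) ↔ (∀ a b, H.Reachable a b → c a = c b) := by
    intro c
    constructor
    · intro h a b hab
      obtain ⟨w⟩ := hab
      induction w with
      | nil => rfl
      | cons hadj _ ih => exact (h _ _ hadj).trans ih
    · intro h a b hab
      exact h a b hab.reachable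
  rw [Nat.card_congr (Equiv.subtypeEquivRight h), card_respect H.Reachable q]
  rfl

theorem natCard_subtype {α : Type} [Fintype α] (p : α → Prop) :
    (Nat.card {a : α // p a} : ℂ) = ∑ a : α, (if p a then (1 : ℂ) else 0) := by
  rw [Nat.card_eq_fintype_card, Fintype.card_subtype]
  simp

theorem chromSum_nat {V : Type} [Fintype V] (G : SimpleGraph V) (q : ℕ) :
    chromSum G (q : ℂ) = (Nat.card {c : V → Fin q // IsCol G q c} : ℂ) := by
  classical
  have h1 : ∀ c : V → Fin q, (if IsCol G q c then (1 : ℂ) else 0) =
      ∏ e ∈ G.edgeFinset, (1 - (if (Sym2.map c e).IsDiag then (1 : ℂ) else 0)) := by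
    intro c
    by_cases hc : IsCol G q c
    · rw [if_pos hc]
      symm
      apply Finset.prod_eq_one
      intro e he
      rw [SimpleGraph.mem_edgeFinset] at he
      induction e using Sym2.ind with
      | _ u v =>
        have : ¬ (Sym2.map c s(u, v)).IsDiag := by
          simpa using hc u v he
        rw [if_neg this]
        ring
    · rw [if_neg hc]
      symm
      simp only [IsCol, not_forall] at hc
      obtain ⟨u, v, huv, hcuv⟩ := hc
      apply Finset.prod_eq_zero (i := s(u, v))
      · rw [SimpleGraph.mem_edgeFinset]; exact huv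
      · have : (Sym2.map c s(u, v)).IsDiag := by
          simpa using hcuv
        rw [if_pos this]
        ring
  rw [natCard_subtype, chromSum]
  simp_rw [h1]
  have h3 : ∀ c : V → Fin q,
      ∏ e ∈ G.edgeFinset, (1 - (if (Sym2.map c e).IsDiag then (1 : ℂ) else 0)) =
      ∑ S ∈ G.edgeFinset.powerset, (-1 : ℂ) ^ S.card * (if (∀ e ∈ S, (Sym2.map c e).IsDiag) then 1 else 0) := by
    intro c
    have : ∀ e : Sym2 V, (1 - (if (Sym2.map c e).IsDiag then (1 : ℂ) else 0)) =
        (- (if (Sym2.map c e).IsDiag then (1 : ℂ) else 0)) + 1 := by intro e; ring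
    simp_rw [this]
    rw [Finset.prod_add]
    apply Finset.sum_congr rfl
    intro S _
    rw [Finset.prod_const_one, mul_one, Finset.prod_neg]
    congr 1
    by_cases hS : ∀ e ∈ S, (Sym2.map c e).IsDiag
    · rw [if_pos hS]
      apply Finset.prod_eq_one
      intro e he
      rw [if_pos (hS e he)]
    · rw [if_neg hS]
      push Not at hS
      obtain ⟨e, he, hne⟩ := hS
      exact Finset.prod_eq_zero he (if_neg hne)
  simp_rw [h3]
  rw [Finset.sum_comm]
  apply Finset.sum_congr rfl
  intro S hS
  rw [← Finset.mul_sum]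
  congr 1
  rw [← Nat.cast_pow, ← card_adj, natCard_subtype]
  apply Finset.sum_congr rfl
  intro c _
  rw [Finset.mem_powerset] at hS
  congr 1
  apply propext
  constructor
  · intro h e he
    have hE := hS he
    rw [SimpleGraph.mem_edgeFinset] at hE
    induction e using Sym2.ind with
    | _ u v =>
      have := h u v (by
        rw [SimpleGraph.fromEdgeSet_adj]
        exact ⟨he, hE.ne⟩)
      simpa using this
  · intro h a b hab
    rw [SimpleGraph.fromEdgeSet_adj] at hab
    have := h _ hab.1
    simpa using this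

/-- the chromatic polynomial as a polynomial -/
theorem chromSum_poly {V : Type} [Fintype V] (G : SimpleGraph V) :
    ∃ P : Polynomial ℂ, ∀ z : ℂ, P.eval z = chromSum G z := by
  refine ⟨∑ S ∈ G.edgeFinset.powerset, Polynomial.C ((-1 : ℂ) ^ S.card) *
      Polynomial.X ^ Nat.card (SimpleGraph.fromEdgeSet (↑S : Set (Sym2 V))).ConnectedComponent, ?_⟩
  intro z
  simp [chromSum, Polynomial.eval_finsetSum]

theorem poly_eq_of_nat (P Q : Polynomial ℂ) (h : ∀ q : ℕ, P.eval (q : ℂ) = Q.eval (q : ℂ)) : P = Q := by
  apply Polynomial.eq_of_infinite_eval_eq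
  refine Set.Infinite.mono (s := Set.range (fun q : ℕ => (q : ℂ))) ?_ ?_
  · rintro _ ⟨q, rfl⟩
    exact h q
  · exact Set.infinite_range_of_injective Nat.cast_injective

/-- numbers of maps with equality and inequality constraints are polynomials in the number of colours -/
theorem constraint_poly {V : Type} [Fintype V] (E : Finset (V × V)) :
    ∀ F : Finset (V × V), ∃ P : Polynomial ℂ, ∀ q : ℕ, P.eval (q : ℂ) =
      (Nat.card {c : V → Fin q // (∀ e ∈ E, c e.1 ≠ c e.2) ∧ ∀ e ∈ F, c e.1 = c e.2} : ℂ) := by
  classical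
  induction E using Finset.induction_on with
  | empty =>
    intro F
    refine ⟨Polynomial.X ^ Nat.card (Quot (fun a b : V => (a, b) ∈ F)), ?_⟩
    intro q
    rw [Polynomial.eval_pow, Polynomial.eval_X, ← Nat.cast_pow, ← card_respect]
    congr 1
    apply Nat.card_congr
    apply Equiv.subtypeEquivRight
    intro c
    constructor
    · intro h
      exact ⟨by simp, fun e he => h e.1 e.2 he⟩
    · intro h a b hab
      exact h.2 (a, b) hab
  | insert e E he ih =>
    intro F
    obtain ⟨P1, h1⟩ := ih F
    obtain ⟨P2, h2⟩ := ih (insert e F)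
    refine ⟨P1 - P2, ?_⟩
    intro q
    rw [Polynomial.eval_sub, h1, h2, natCard_subtype, natCard_subtype, natCard_subtype,
      ← Finset.sum_sub_distrib]
    apply Finset.sum_congr rfl
    intro c _
    have key : ∀ A B C : Prop, ((if A ∧ B then (1 : ℂ) else 0) - (if A ∧ (C ∧ B) then 1 else 0)) =
        if (¬ C ∧ A) ∧ B then 1 else 0 := by
      intro A B C
      by_cases hA : A <;> by_cases hB : B <;> by_cases hC : C <;> simp [hA, hB, hC]
    have e1 : (∀ e' ∈ insert e F, c e'.1 = c e'.2) ↔ (c e.1 = c e.2 ∧ ∀ e' ∈ F, c e'.1 = c e'.2) := by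
      rw [Finset.forall_mem_insert]
    have e2 : (∀ e' ∈ insert e E, c e'.1 ≠ c e'.2) ↔ (¬ (c e.1 = c e.2) ∧ ∀ e' ∈ E, c e'.1 ≠ c e'.2) := by
      rw [Finset.forall_mem_insert]
    rw [e1, e2]
    convert key (∀ e' ∈ E, c e'.1 ≠ c e'.2) (∀ e' ∈ F, c e'.1 = c e'.2) (c e.1 = c e.2)

end Pool.Agent.LibChromRoots
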